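import Pool.Agent.H57.IR.Dyn

/-!
# The cone in the plane spanned by two conjugate eigenvectors
-/

set_option autoImplicit false

namespace Pool.Agent.H57.IR

open Pool.Agent.H57.KM

variable {N : ℕ} {C : Set (V N)}

theorem cone_pos (hC : IsAmp C) (F : V N → ℝ) (hpos : ∀ x ∈ C, 0 < F x) {e₁ e₂ : V N}
    (hh : e₁ + e₂ ∈ C) {c : ℝ} {m : ℕ} (hm : 0 < m)
    (hF : ∀ a b : ℝ, F (a • e₁ + b • e₂) = c * (a * b) ^ m) {a b : ℝ} (hab : a • e₁ + b • e₂ ∈ C) :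
    0 < a ∧ 0 < b := by
  constructor
  · by_contra ha
    push Not at ha
    have h1 : 0 < 1 - a := by linarith
    have h2 : (1 - 1 / (1 - a)) • (e₁ + e₂) + (1 / (1 - a)) • (a • e₁ + b • e₂) ∈ C := by
      refine hC.convex hh hab ?_ (by positivity) (by ring)
      rw [sub_nonneg, div_le_one h1]
      linarith
    have h3 : (1 - 1 / (1 - a)) • (e₁ + e₂) + (1 / (1 - a)) • (a • e₁ + b • e₂) =
        (0 : ℝ) • e₁ + ((1 - 1 / (1 - a)) + b / (1 - a)) • e₂ := by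
      have h4 : (1 - 1 / (1 - a)) + (1 / (1 - a)) * a = 0 := by
        field_simp
        ring
      rw [← h4]
      module
    rw [h3] at h2
    have h5 := hpos _ h2
    rw [hF, zero_mul, zero_pow hm.ne', mul_zero] at h5
    exact lt_irrefl _ h5
  · by_contra ha
    push Not at ha
    have h1 : 0 < 1 - b := by linarith
    have h2 : (1 - 1 / (1 - b)) • (e₁ + e₂) + (1 / (1 - b)) • (a • e₁ + b • e₂) ∈ C := by
      refine hC.convex hh hab ?_ (by positivity) (by ring)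
      rw [sub_nonneg, div_le_one h1]
      linarith
    have h3 : (1 - 1 / (1 - b)) • (e₁ + e₂) + (1 / (1 - b)) • (a • e₁ + b • e₂) =
        ((1 - 1 / (1 - b)) + a / (1 - b)) • e₁ + (0 : ℝ) • e₂ := by
      have h4 : (1 - 1 / (1 - b)) + (1 / (1 - b)) * b = 0 := by
        field_simp
        ring
      rw [← h4]
      module
    rw [h3] at h2
    have h5 := hpos _ h2
    rw [hF, mul_zero, zero_pow hm.ne', mul_zero] at h5
    exact lt_irrefl _ h5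

theorem act_zpow {g : GL (Fin N) ℤ} {e : V N} {μ : ℝ} (hμ : μ ≠ 0) (he : act g e = μ • e) (j : ℤ) :
    act (g ^ j) e = μ ^ j • e := by
  have hnat : ∀ j : ℕ, act (g ^ j) e = μ ^ j • e := by
    intro j
    induction j with
    | zero => rw [pow_zero, pow_zero, act_one, one_smul]
    | succ j ih => rw [pow_succ, act_mul, he, act_smul, ih, smul_smul, pow_succ, mul_comm]
  have hinv : act g⁻¹ e = μ⁻¹ • e := by
    have h1 := congrArg (act g⁻¹) he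
    rw [← act_mul, inv_mul_cancel, act_one, act_smul] at h1
    calc act g⁻¹ e = (μ⁻¹ * μ) • act g⁻¹ e := by rw [inv_mul_cancel₀ hμ, one_smul]
      _ = μ⁻¹ • (μ • act g⁻¹ e) := mul_smul _ _ _
      _ = μ⁻¹ • e := by rw [← h1]
  have hnatinv : ∀ j : ℕ, act (g⁻¹ ^ j) e = μ⁻¹ ^ j • e := by
    intro j
    induction j with
    | zero => rw [pow_zero, pow_zero, act_one, one_smul]
    | succ j ih => rw [pow_succ, act_mul, hinv, act_smul, ih, smul_smul, pow_succ, mul_comm]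
  cases j with
  | ofNat k => simpa using hnat k
  | negSucc k =>
    rw [zpow_negSucc, zpow_negSucc, ← inv_pow, ← inv_pow]
    exact hnatinv (k + 1)

theorem act_comb {g : GL (Fin N) ℤ} {e₁ e₂ : V N} {μ : ℝ} (hμ : μ ≠ 0) (h1 : act g e₁ = μ • e₁)
    (h2 : act g e₂ = μ⁻¹ • e₂) (a b : ℝ) (j : ℤ) :
    act (g ^ j) (a • e₁ + b • e₂) = (a * μ ^ j) • e₁ + (b * (μ ^ j)⁻¹) • e₂ := by
  rw [act_add, act_smul, act_smul, act_zpow hμ h1, act_zpow (inv_ne_zero hμ) h2, smul_smul, smul_smul,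
    inv_zpow]

theorem e2_closure (hC : IsAmp C) {G : Subgroup (GL (Fin N) ℤ)} (hG : ∀ g ∈ G, ∀ x ∈ C, act g x ∈ C)
    {g : GL (Fin N) ℤ} (hg : g ∈ G) {e₁ e₂ : V N} {μ : ℝ} (hμ : 1 < μ) (h1 : act g e₁ = μ • e₁)
    (h2 : act g e₂ = μ⁻¹ • e₂) (hh : e₁ + e₂ ∈ C) : e₂ ∈ closure C := by
  have hμ0 : 0 < μ := by linarith
  have hmem : ∀ j : ℕ, ((μ⁻¹ ^ 2) ^ j) • e₁ + e₂ ∈ C := by
    intro j
    have h3 : act (g ^ (-(j : ℤ))) ((1 : ℝ) • e₁ + (1 : ℝ) • e₂) ∈ C := by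
      apply hG _ (G.zpow_mem hg _)
      rwa [one_smul, one_smul]
    rw [act_comb hμ0.ne' h1 h2] at h3
    have h4 := hC.smul ((μ ^ j)⁻¹) (by positivity) _ h3
    have h5 : ((μ⁻¹ ^ 2) ^ j) • e₁ + e₂ = ((μ ^ j)⁻¹) •
        ((1 * μ ^ (-(j : ℤ))) • e₁ + (1 * (μ ^ (-(j : ℤ)))⁻¹) • e₂) := by
      rw [smul_add, smul_smul, smul_smul, zpow_neg, zpow_natCast, inv_inv]
      have h6 : (μ ^ j)⁻¹ * (1 * μ ^ j) = 1 := by
        rw [one_mul, inv_mul_cancel₀ (by positivity)]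
      rw [h6, one_smul]
      congr 2
      rw [inv_pow, one_mul, ← mul_inv, ← pow_add, inv_pow, ← pow_mul]
      congr 2
      ring
    rw [h5]
    exact h4
  have hlim : Filter.Tendsto (fun j : ℕ => ((μ⁻¹ ^ 2) ^ j) • e₁ + e₂) Filter.atTop (nhds e₂) := by
    have h3 : μ⁻¹ ^ 2 < 1 := pow_lt_one₀ (by positivity) (inv_lt_one_of_one_lt₀ hμ) two_ne_zero
    have h4 := ((tendsto_pow_atTop_nhds_zero_of_lt_one (by positivity) h3).smul_const e₁).add_const e₂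
    rw [zero_smul, zero_add] at h4
    exact h4
  exact mem_closure_of_tendsto hlim (Filter.Eventually.of_forall hmem)

theorem cone_iff (hC : IsAmp C) (F : V N → ℝ) (hpos : ∀ x ∈ C, 0 < F x) {e₁ e₂ : V N}
    (hh : e₁ + e₂ ∈ C) {c : ℝ} {m : ℕ} (hm : 0 < m)
    (hF : ∀ a b : ℝ, F (a • e₁ + b • e₂) = c * (a * b) ^ m) (he₁ : e₁ ∈ closure C) (he₂ : e₂ ∈ closure C)
    (a b : ℝ) : a • e₁ + b • e₂ ∈ C ↔ 0 < a ∧ 0 < b := by
  refine ⟨cone_pos hC F hpos hh hm hF, ?_⟩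
  rintro ⟨ha, hb⟩
  have hmin : 0 < min a b := lt_min ha hb
  have h1 : a • e₁ + b • e₂ = ((a - min a b / 2) • e₁ + (b - min a b / 2) • e₂) + (min a b / 2) • (e₁ + e₂) := by
    module
  rw [h1]
  have h2 := min_le_left a b
  have h3 := min_le_right a b
  apply hC.add_mem
  · exact hC.closure_add _ (hC.closure_smul _ (by linarith) _ he₁) _ (hC.closure_smul _ (by linarith) _ he₂)
  · exact hC.smul _ (by positivity) _ hh

theorem closure_iff (hC : IsAmp C) (F : V N → ℝ) (hpos : ∀ x ∈ C, 0 < F x) {e₁ e₂ : V N}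
    (hh : e₁ + e₂ ∈ C) {c : ℝ} {m : ℕ} (hm : 0 < m)
    (hF : ∀ a b : ℝ, F (a • e₁ + b • e₂) = c * (a * b) ^ m) (he₁ : e₁ ∈ closure C) (he₂ : e₂ ∈ closure C)
    (a b : ℝ) : a • e₁ + b • e₂ ∈ closure C ↔ 0 ≤ a ∧ 0 ≤ b := by
  constructor
  · intro h
    have h1 : ∀ ε : ℝ, 0 < ε → 0 < a + ε ∧ 0 < b + ε := by
      intro ε hε
      have h2 : (a + ε) • e₁ + (b + ε) • e₂ = (a • e₁ + b • e₂) + ε • (e₁ + e₂) := by
        module
      rw [← cone_iff hC F hpos hh hm hF he₁ he₂, h2]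
      exact hC.add_mem _ h _ (hC.smul _ hε _ hh)
    constructor
    · by_contra ha
      push Not at ha
      have := (h1 (-a) (by linarith)).1
      linarith
    · by_contra hb
      push Not at hb
      have := (h1 (-b) (by linarith)).2
      linarith
  · rintro ⟨ha, hb⟩
    exact hC.closure_add _ (hC.closure_smul _ ha _ he₁) _ (hC.closure_smul _ hb _ he₂)

/-- the eigenvectors are linearly independent -/
theorem indep_pair (hC : IsAmp C) (F : V N → ℝ) (hpos : ∀ x ∈ C, 0 < F x) {e₁ e₂ : V N}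
    (hh : e₁ + e₂ ∈ C) {c : ℝ} {m : ℕ} (hm : 0 < m)
    (hF : ∀ a b : ℝ, F (a • e₁ + b • e₂) = c * (a * b) ^ m) {a b a' b' : ℝ}
    (h : a • e₁ + b • e₂ = a' • e₁ + b' • e₂) : a = a' ∧ b = b' := by
  have key : ∀ t : ℝ, 0 < 1 + t * (a - a') ∧ 0 < 1 + t * (b - b') := by
    intro t
    apply cone_pos hC F hpos hh hm hF
    have h1 : (1 + t * (a - a')) • e₁ + (1 + t * (b - b')) • e₂ =
        (e₁ + e₂) + t • ((a • e₁ + b • e₂) - (a' • e₁ + b' • e₂)) := by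
      module
    rw [h1, h, sub_self, smul_zero, add_zero]
    exact hh
  constructor
  · by_contra hne
    have h2 := (key (-1 / (a - a'))).1
    rw [div_mul_cancel₀ _ (sub_ne_zero.2 hne)] at h2
    linarith
  · by_contra hne
    have h2 := (key (-1 / (b - b'))).2
    rw [div_mul_cancel₀ _ (sub_ne_zero.2 hne)] at h2
    linarith

/-- the translates of the cone spanned by `h` and `g h` cover -/
theorem plane_cover {g : GL (Fin N) ℤ} {e₁ e₂ : V N} {μ : ℝ} (hμ : 1 < μ) (h1 : act g e₁ = μ • e₁)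
    (h2 : act g e₂ = μ⁻¹ • e₂) {a b : ℝ} (ha : 0 < a) (hb : 0 < b) :
    ∃ j : ℤ, ∃ α β : ℝ, 0 ≤ α ∧ 0 ≤ β ∧
      a • e₁ + b • e₂ = act (g ^ j) (α • (e₁ + e₂) + β • act g (e₁ + e₂)) := by
  have hμ0 : 0 < μ := by linarith
  have hμi : μ⁻¹ < 1 := inv_lt_one_of_one_lt₀ hμ
  have hμd : 0 < μ - μ⁻¹ := by linarith
  obtain ⟨j, hj1, hj2⟩ := exists_mem_Ico_zpow (x := a / b) (y := μ ^ 2) (by positivity)
    (one_lt_pow₀ hμ two_ne_zero)
  have hz : 0 < μ ^ j := by positivity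
  have e1 : (μ ^ 2) ^ j = μ ^ j * μ ^ j := by
    rw [← zpow_natCast, ← zpow_mul, ← zpow_add₀ hμ0.ne']
    congr 1
    push_cast
    ring
  have e2 : (μ ^ 2) ^ (j + 1) = μ ^ j * μ ^ j * μ ^ 2 := by
    rw [zpow_add₀ (by positivity), e1, zpow_one]
  rw [e1, le_div_iff₀ hb] at hj1
  rw [e2, div_lt_iff₀ hb] at hj2
  have hgh : act g (e₁ + e₂) = μ • e₁ + μ⁻¹ • e₂ := by
    rw [act_add, h1, h2]
  have hAB : b * μ ^ j ≤ a * (μ ^ j)⁻¹ := by
    rw [← div_eq_mul_inv, le_div_iff₀ hz]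
    linarith
  have hBA : a * (μ ^ j)⁻¹ * μ⁻¹ ≤ b * μ ^ j * μ := by
    rw [← div_eq_mul_inv, ← div_eq_mul_inv, div_div, div_le_iff₀ (by positivity)]
    nlinarith
  refine ⟨j, (b * μ ^ j * μ - a * (μ ^ j)⁻¹ * μ⁻¹) / (μ - μ⁻¹),
    (a * (μ ^ j)⁻¹ - b * μ ^ j) / (μ - μ⁻¹), div_nonneg (by linarith) hμd.le,
    div_nonneg (by linarith) hμd.le, ?_⟩
  have key : ∀ α β A B : ℝ, α + β * μ = A → α + β * μ⁻¹ = B →
      α • (e₁ + e₂) + β • (μ • e₁ + μ⁻¹ • e₂) = A • e₁ + B • e₂ := by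
    intro α β A B h h'
    rw [← h, ← h']
    module
  rw [hgh]
  have h3 : ((b * μ ^ j * μ - a * (μ ^ j)⁻¹ * μ⁻¹) / (μ - μ⁻¹)) • (e₁ + e₂) +
      ((a * (μ ^ j)⁻¹ - b * μ ^ j) / (μ - μ⁻¹)) • (μ • e₁ + μ⁻¹ • e₂) =
      (a * (μ ^ j)⁻¹) • e₁ + (b * μ ^ j) • e₂ := by
    have h4 : ((b * μ ^ j * μ - a * (μ ^ j)⁻¹ * μ⁻¹) / (μ - μ⁻¹)) +
        ((a * (μ ^ j)⁻¹ - b * μ ^ j) / (μ - μ⁻¹)) * μ = a * (μ ^ j)⁻¹ := by
      rw [div_mul_eq_mul_div, ← add_div, div_eq_iff hμd.ne']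
      ring
    have h5 : ((b * μ ^ j * μ - a * (μ ^ j)⁻¹ * μ⁻¹) / (μ - μ⁻¹)) +
        ((a * (μ ^ j)⁻¹ - b * μ ^ j) / (μ - μ⁻¹)) * μ⁻¹ = b * μ ^ j := by
      rw [div_mul_eq_mul_div, ← add_div, div_eq_iff hμd.ne']
      ring
    exact key _ _ _ _ h4 h5
  rw [h3, act_comb hμ0.ne' h1 h2, mul_assoc, inv_mul_cancel₀ hz.ne', mul_one, mul_assoc, mul_inv_cancel₀ hz.ne',
    mul_one]

/-- the interiors of different translates are disjoint -/
theorem plane_disj (hC : IsAmp C) (F : V N → ℝ) (hpos : ∀ x ∈ C, 0 < F x)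
    {g : GL (Fin N) ℤ} {e₁ e₂ : V N} (hh : e₁ + e₂ ∈ C) {c : ℝ} {m : ℕ} (hm : 0 < m)
    (hF : ∀ a b : ℝ, F (a • e₁ + b • e₂) = c * (a * b) ^ m) {μ : ℝ} (hμ : 1 < μ)
    (h1 : act g e₁ = μ • e₁) (h2 : act g e₂ = μ⁻¹ • e₂) {j : ℤ} {α β α' β' : ℝ} (hα : 0 < α) (hβ : 0 < β)
    (hα' : 0 < α') (hβ' : 0 < β')
    (hj : act (g ^ j) (α • (e₁ + e₂) + β • act g (e₁ + e₂)) = α' • (e₁ + e₂) + β' • act g (e₁ + e₂)) :
    j = 0 := by
  have hμ0 : 0 < μ := by linarith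
  have hμi : μ⁻¹ < 1 := inv_lt_one_of_one_lt₀ hμ
  have hμμ : μ * μ⁻¹ = 1 := mul_inv_cancel₀ hμ0.ne'
  have hμi0 : 0 < μ⁻¹ := by positivity
  have hgh : act g (e₁ + e₂) = μ • e₁ + μ⁻¹ • e₂ := by
    rw [act_add, h1, h2]
  rw [hgh] at hj
  have e3 : α • (e₁ + e₂) + β • (μ • e₁ + μ⁻¹ • e₂) = (α + β * μ) • e₁ + (α + β * μ⁻¹) • e₂ := by module
  have e4 : α' • (e₁ + e₂) + β' • (μ • e₁ + μ⁻¹ • e₂) = (α' + β' * μ) • e₁ + (α' + β' * μ⁻¹) • e₂ := by module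
  rw [e3, e4, act_comb hμ0.ne' h1 h2] at hj
  obtain ⟨k1, k2⟩ := indep_pair hC F hpos hh hm hF hj
  by_contra hj0
  rcases lt_or_gt_of_ne hj0 with hneg | hpos'
  · have h3 : μ ^ j ≤ μ⁻¹ := by
      have h4 : μ ^ j ≤ μ ^ (-1 : ℤ) := zpow_le_zpow_right₀ hμ.le (by omega)
      rwa [zpow_neg_one] at h4
    have hz : 0 < μ ^ j := by positivity
    have h5 : μ ≤ (μ ^ j)⁻¹ := by
      rw [le_inv_comm₀ hμ0 hz]
      exact h3
    have h6 : α' + β' * μ ≤ (α + β * μ) * μ⁻¹ := by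
      rw [← k1]
      exact mul_le_mul_of_nonneg_left h3 (by positivity)
    have h7 : (α + β * μ⁻¹) * μ ≤ α' + β' * μ⁻¹ := by
      rw [← k2]
      exact mul_le_mul_of_nonneg_left h5 (by positivity)
    have h8 : (α + β * μ) * μ⁻¹ = α * μ⁻¹ + β := by
      rw [add_mul, mul_assoc, hμμ, mul_one]
    have h9 : (α + β * μ⁻¹) * μ = α * μ + β := by
      rw [add_mul, mul_assoc, inv_mul_cancel₀ hμ0.ne', mul_one]
    rw [h8] at h6
    rw [h9] at h7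
    have h10 : β' * μ⁻¹ < β' * μ := by
      apply mul_lt_mul_of_pos_left _ hβ'
      linarith
    have h11 : α * μ⁻¹ < α * μ := by
      apply mul_lt_mul_of_pos_left _ hα
      linarith
    linarith
  · have h3 : μ ≤ μ ^ j := by
      have h4 : μ ^ (1 : ℤ) ≤ μ ^ j := zpow_le_zpow_right₀ hμ.le (by omega)
      rwa [zpow_one] at h4
    have hz : 0 < μ ^ j := by positivity
    have h5 : (μ ^ j)⁻¹ ≤ μ⁻¹ := by
      rw [inv_le_inv₀ hz hμ0]
      exact h3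
    have h6 : (α + β * μ) * μ ≤ α' + β' * μ := by
      rw [← k1]
      exact mul_le_mul_of_nonneg_left h3 (by positivity)
    have h7 : α' + β' * μ⁻¹ ≤ (α + β * μ⁻¹) * μ⁻¹ := by
      rw [← k2]
      exact mul_le_mul_of_nonneg_left h5 (by positivity)
    have h6' : (α + β * μ) * μ * μ⁻¹ ≤ (α' + β' * μ) * μ⁻¹ := mul_le_mul_of_nonneg_right h6 hμi0.le
    have h7' : (α' + β' * μ⁻¹) * μ ≤ (α + β * μ⁻¹) * μ⁻¹ * μ := mul_le_mul_of_nonneg_right h7 hμ0.le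
    have h8 : (α + β * μ) * μ * μ⁻¹ = α + β * μ := by rw [mul_assoc, hμμ, mul_one]
    have h9 : (α + β * μ⁻¹) * μ⁻¹ * μ = α + β * μ⁻¹ := by
      rw [mul_assoc, inv_mul_cancel₀ hμ0.ne', mul_one]
    have h10 : (α' + β' * μ) * μ⁻¹ = α' * μ⁻¹ + β' := by
      rw [add_mul, mul_assoc, hμμ, mul_one]
    have h11 : (α' + β' * μ⁻¹) * μ = α' * μ + β' := by
      rw [add_mul, mul_assoc, inv_mul_cancel₀ hμ0.ne', mul_one]
    rw [h8, h10] at h6'
    rw [h9, h11] at h7'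
    have h12 : α' * μ⁻¹ < α' * μ := by
      apply mul_lt_mul_of_pos_left _ hα'
      linarith
    have h13 : β * μ⁻¹ < β * μ := by
      apply mul_lt_mul_of_pos_left _ hβ
      linarith
    linarith

end Pool.Agent.H57.IR
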