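import Pool.Agent.H57.IR.Poly
import Pool.Agent.H57.KM.Basic

/-!
# The top form on a rational plane which contains an irrational vector of small numerical dimension
-/

set_option autoImplicit false

namespace Pool.Agent.H57.IR

open Polynomial Pool.Agent.H57.KM

private theorem form_expand {N d : ℕ} (I : MultilinearMap ℝ (fun _ : Fin d => V N) ℝ) (h u : V N) (x : ℝ) :
    I (fun _ => x • h + u) = ∑ s : Finset (Fin d), x ^ s.card * I (s.piecewise (fun _ => h) (fun _ => u)) := by
  classical
  have h1 : (fun _ : Fin d => x • h + u) = (fun _ : Fin d => x • h) + (fun _ : Fin d => u) := rfl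
  rw [h1, MultilinearMap.map_add_univ]
  refine Finset.sum_congr rfl (fun s _ => ?_)
  have h2 : s.piecewise (fun _ : Fin d => x • h) (fun _ : Fin d => u) =
      s.piecewise (fun i => x • (s.piecewise (fun _ : Fin d => h) (fun _ : Fin d => u)) i)
        (s.piecewise (fun _ : Fin d => h) (fun _ : Fin d => u)) := by
    funext i
    by_cases hi : i ∈ s
    · simp [hi]
    · simp [hi]
  rw [h2, MultilinearMap.map_piecewise_smul I (fun _ => x)]
  rw [Finset.prod_const, smul_eq_mul]

theorem form_poly {N d : ℕ} (I : MultilinearMap ℝ (fun _ : Fin d => V N) ℝ) (h u : V N)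
    (hint : ∀ s : Finset (Fin d), ∃ z : ℤ, I (s.piecewise (fun _ => h) (fun _ => u)) = z)
    (hpos : I (fun _ => h) ≠ 0) :
    ∃ P : ℚ[X], P.natDegree = d ∧ ((P.leadingCoeff : ℚ) : ℝ) = I (fun _ => h) ∧
      ∀ x : ℝ, (P.map (algebraMap ℚ ℝ)).eval x = I (fun _ => x • h + u) := by
  classical
  choose z hz using hint
  let P : ℚ[X] := ∑ s : Finset (Fin d), C (z s : ℚ) * X ^ s.card
  have hcoeff : P.coeff d = (z Finset.univ : ℚ) := by
    change (∑ s : Finset (Fin d), C (z s : ℚ) * X ^ s.card).coeff d = _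
    rw [finsetSum_coeff, Finset.sum_eq_single Finset.univ]
    · simp
    · intro s _ hs
      rw [coeff_C_mul_X_pow, if_neg]
      intro hc
      apply hs
      rw [← Finset.card_eq_iff_eq_univ, ← hc, Fintype.card_fin]
    · intro hs
      exact absurd (Finset.mem_univ _) hs
  have huniv : ((z Finset.univ : ℤ) : ℝ) = I (fun _ => h) := by
    rw [← hz Finset.univ, Finset.piecewise_univ]
  have hne : (z Finset.univ : ℚ) ≠ 0 := by
    intro h0
    apply hpos
    rw [← huniv]
    exact_mod_cast h0
  have hdeg : P.natDegree = d := by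
    apply le_antisymm
    · refine natDegree_sum_le_of_forall_le _ _ (fun s _ => ?_)
      refine (natDegree_C_mul_X_pow_le _ _).trans ?_
      have := Finset.card_le_univ s
      rwa [Fintype.card_fin] at this
    · apply le_natDegree_of_ne_zero
      rw [hcoeff]
      exact hne
  refine ⟨P, hdeg, ?_, ?_⟩
  · rw [leadingCoeff, hdeg, hcoeff, ← huniv]
    simp
  · intro x
    rw [form_expand]
    change ((∑ s : Finset (Fin d), C (z s : ℚ) * X ^ s.card).map (algebraMap ℚ ℝ)).eval x = _
    rw [Polynomial.map_sum, eval_finsetSum]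
    refine Finset.sum_congr rfl (fun s _ => ?_)
    rw [Polynomial.map_mul, Polynomial.map_pow, map_C, map_X, eval_mul, eval_pow, eval_C, eval_X, hz s]
    simp only [eq_ratCast, Rat.cast_intCast]
    ring

theorem form_div {N d m : ℕ} (I : MultilinearMap ℝ (fun _ : Fin d => V N) ℝ) (h u p : V N) {θ b : ℝ}
    (hb : b ≠ 0) (hp : p = b • (θ • h + u))
    (hnd : ∀ x : Fin d → V N, m < (Finset.univ.filter (fun i => x i = p)).card → I x = 0)
    {P : ℚ[X]} (hP : ∀ x : ℝ, (P.map (algebraMap ℚ ℝ)).eval x = I (fun _ => x • h + u)) :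
    (X - C θ) ^ (d - m) ∣ P.map (algebraMap ℚ ℝ) := by
  classical
  let w : V N := b⁻¹ • p
  have hw : w = θ • h + u := by
    change b⁻¹ • p = _
    rw [hp, smul_smul, inv_mul_cancel₀ hb, one_smul]
  have hvan : ∀ s : Finset (Fin d), s.card < d - m → I (s.piecewise (fun _ => h) (fun _ => w)) = 0 := by
    intro s hs
    have h2 : s.piecewise (fun _ : Fin d => h) (fun _ : Fin d => w) =
        sᶜ.piecewise (fun i => b⁻¹ • (s.piecewise (fun _ : Fin d => h) (fun _ : Fin d => p)) i)
          (s.piecewise (fun _ : Fin d => h) (fun _ : Fin d => p)) := by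
      funext i
      by_cases hi : i ∈ s
      · simp [hi]
      · simp [hi, w]
    rw [h2, MultilinearMap.map_piecewise_smul I (fun _ => b⁻¹), hnd, smul_zero]
    have h3 : sᶜ.card = d - s.card := by
      rw [Finset.card_compl, Fintype.card_fin]
    have h4 : sᶜ ⊆ Finset.univ.filter
        (fun i => (s.piecewise (fun _ : Fin d => h) (fun _ : Fin d => p)) i = p) := by
      intro i hi
      rw [Finset.mem_filter]
      refine ⟨Finset.mem_univ _, ?_⟩
      rw [Finset.mem_compl] at hi
      simp [hi]
    have h5 := Finset.card_le_card h4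
    omega
  have hcomp : (P.map (algebraMap ℚ ℝ)).comp (X + C θ) =
      ∑ s : Finset (Fin d), C (I (s.piecewise (fun _ => h) (fun _ => w))) * X ^ s.card := by
    apply Polynomial.funext
    intro y
    rw [eval_comp, eval_add, eval_X, eval_C, hP, eval_finsetSum]
    have h1 : (y + θ) • h + u = y • h + w := by
      rw [hw, add_smul, add_assoc]
    rw [h1, form_expand]
    refine Finset.sum_congr rfl (fun s _ => ?_)
    rw [eval_mul, eval_pow, eval_C, eval_X]
    ring
  have hdiv : X ^ (d - m) ∣ (P.map (algebraMap ℚ ℝ)).comp (X + C θ) := by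
    rw [hcomp]
    refine Finset.dvd_sum (fun s _ => ?_)
    by_cases hs : s.card < d - m
    · rw [hvan s hs, C_0, zero_mul]
      exact dvd_zero _
    · push Not at hs
      exact Dvd.dvd.mul_left (pow_dvd_pow _ hs) _
  obtain ⟨R, hR⟩ := hdiv
  refine ⟨R.comp (X - C θ), ?_⟩
  have h6 := congrArg (fun Q : ℝ[X] => Q.comp (X - C θ)) hR
  simp only [comp_assoc, add_comp, X_comp, C_comp, sub_add_cancel, comp_X, mul_comp, X_pow_comp] at h6
  exact h6

/-- the form is a multiple of the power of a rational quadratic form -/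
theorem form_quad {N d m : ℕ} (I : MultilinearMap ℝ (fun _ : Fin d => V N) ℝ) (hd : 0 < d) (h u p : V N)
    (hint : ∀ s : Finset (Fin d), ∃ z : ℤ, I (s.piecewise (fun _ => h) (fun _ => u)) = z)
    (hpos : I (fun _ => h) ≠ 0) {θ b : ℝ} (hθ : Irrational θ)
    (hb : b ≠ 0) (hp : p = b • (θ • h + u))
    (hnd : ∀ x : Fin d → V N, m < (Finset.univ.filter (fun i => x i = p)).card → I x = 0)
    (hm : 2 * m ≤ d) :
    d = 2 * m ∧ ∃ s t : ℚ, θ ^ 2 - s * θ + t = 0 ∧
      ∀ x y : ℝ, I (fun _ => x • h + y • u) = I (fun _ => h) * (x ^ 2 - s * x * y + t * y ^ 2) ^ m := by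
  obtain ⟨P, hdeg, hlc, hP⟩ := form_poly I h u hint hpos
  have hdiv := form_div I h u p hb hp hnd hP
  obtain ⟨h1, s, t, hst, hPe⟩ := quad_power (P := P) (θ := θ) (e := d - m) (d := d) hθ hd (by omega) hdeg hdiv
  have hdm : d = 2 * m := by omega
  refine ⟨hdm, s, t, hst, ?_⟩
  have hem : d - m = m := by omega
  rw [hem] at hPe
  have heval : ∀ x : ℝ, I (fun _ => x • h + u) = I (fun _ => h) * (x ^ 2 - s * x + t) ^ m := by
    intro x
    rw [← hP, hPe, ← hlc]
    simp only [Polynomial.map_mul, Polynomial.map_pow, Polynomial.map_add, Polynomial.map_sub, map_X, map_C,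
      eval_mul, eval_pow, eval_add, eval_sub, eval_X, eval_C, eq_ratCast]
  have hpow : ∀ y : ℝ, y ^ d = (y ^ 2) ^ m := by
    intro y
    rw [hdm, pow_mul]
  intro x y
  by_cases hy : y = 0
  · subst hy
    have h2 : (fun _ : Fin d => x • h + (0 : ℝ) • u) = fun _ : Fin d => x • h := by
      funext i
      rw [zero_smul, add_zero]
    have h3 := MultilinearMap.map_smul_univ I (fun _ : Fin d => x) (fun _ : Fin d => h)
    rw [h2, h3, Finset.prod_const, Finset.card_univ, Fintype.card_fin, smul_eq_mul, hpow, mul_comm]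
    congr 2
    ring
  · have h2 : (fun _ : Fin d => x • h + y • u) = fun _ : Fin d => y • ((x / y) • h + u) := by
      funext i
      rw [smul_add, smul_smul, mul_div_cancel₀ _ hy]
    have h3 := MultilinearMap.map_smul_univ I (fun _ : Fin d => y) (fun _ : Fin d => (x / y) • h + u)
    rw [h2, h3, Finset.prod_const, Finset.card_univ, Fintype.card_fin, smul_eq_mul, heval, hpow]
    have h4 : (y ^ 2) ^ m * (I (fun _ => h) * ((x / y) ^ 2 - s * (x / y) + t) ^ m) =
        I (fun _ => h) * (y ^ 2 * ((x / y) ^ 2 - s * (x / y) + t)) ^ m := by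
      rw [mul_pow]
      ring
    rw [h4]
    congr 2
    field_simp

end Pool.Agent.H57.IR
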