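import Pool.Agent.H57.KM.Basic

/-!
# Irrational boundary classes of a plane which meets the ample cone are not in the convex hull of the rational ones
-/

set_option autoImplicit false

namespace Pool.Agent.H57.IR

open Pool.Agent.H57.KM

theorem irr_qR_add {N : ℕ} (q r : Fin N → ℚ) : qR (q + r) = qR q + qR r := by
  funext i
  simp [qR]

theorem irr_qR_smul {N : ℕ} (a : ℚ) (q : Fin N → ℚ) : qR (a • q) = (a : ℝ) • qR q := by
  funext i
  simp [qR]

theorem irr_toR {N : ℕ} (h : Fin N → ℤ) : toR h = qR (fun i => (h i : ℚ)) := by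
  funext i
  simp [qR, toR]

/-- a rational subspace which contains an irrational vector of a rational plane contains the plane -/
theorem mem_of_irr {N : ℕ} (R : Submodule ℚ (Fin N → ℚ)) (h u : Fin N → ℚ) {θ c : ℝ} (hθ : Irrational θ)
    (hc : c ≠ 0) (hx : c • (θ • qR h + qR u) ∈ Submodule.span ℝ (qR '' (R : Set (Fin N → ℚ)))) : h ∈ R := by
  by_contra hR
  obtain ⟨f, hf, hfR⟩ := Submodule.exists_le_ker_of_notMem hR
  let F : V N →ₗ[ℝ] ℝ := ∑ i, ((f (Pi.single i 1) : ℚ) : ℝ) • LinearMap.proj i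
  have hF : ∀ q : Fin N → ℚ, F (qR q) = f q := by
    intro q
    have h1 : f q = ∑ i, q i * f (Pi.single i 1) := by
      conv_lhs => rw [← Finset.univ_sum_single q]
      rw [map_sum]
      refine Finset.sum_congr rfl (fun i _ => ?_)
      have h2 : (Pi.single i (q i) : Fin N → ℚ) = q i • Pi.single i 1 := by
        rw [← Pi.single_smul, smul_eq_mul, mul_one]
      rw [h2, map_smul, smul_eq_mul]
    rw [h1]
    simp only [F, LinearMap.sum_apply, LinearMap.smul_apply, LinearMap.proj_apply, smul_eq_mul, qR]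
    push_cast
    refine Finset.sum_congr rfl (fun i _ => mul_comm _ _)
  have hle : Submodule.span ℝ (qR '' (R : Set (Fin N → ℚ))) ≤ LinearMap.ker F := by
    rw [Submodule.span_le]
    rintro _ ⟨r, hr, rfl⟩
    change F (qR r) = 0
    rw [hF]
    have := hfR hr
    rw [LinearMap.mem_ker] at this
    rw [this, Rat.cast_zero]
  have h0 : F (c • (θ • qR h + qR u)) = 0 := hle hx
  rw [map_smul, map_add, map_smul, hF, hF, smul_eq_mul, smul_eq_mul] at h0
  have h1 : θ * f h + f u = 0 := (mul_eq_zero.1 h0).resolve_left hc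
  have hfh : ((f h : ℚ) : ℝ) ≠ 0 := by exact_mod_cast hf
  apply hθ
  refine ⟨-(f u) / f h, ?_⟩
  push_cast
  rw [div_eq_iff hfh]
  linarith

theorem not_mem_hull {N : ℕ} {C : Set (V N)} (hC : IsAmp C) (h u : Fin N → ℤ) (hh : toR h ∈ C) {θ c : ℝ}
    (hθ : Irrational θ) (hc : c ≠ 0) (hx : c • (θ • toR h + toR u) ∉ C) :
    c • (θ • toR h + toR u) ∉ convexHull ℝ {x | x ∈ closure C ∧ ∃ q : Fin N → ℚ, x = qR q} := by
  intro hmem
  let Z : Set (V N) := {x | x ∈ closure C ∧ ∃ R : Submodule ℚ (Fin N → ℚ),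
    x ∈ Submodule.span ℝ (qR '' (R : Set (Fin N → ℚ))) ∧ ∀ r ∈ R, ∃ ε : ℝ, 0 < ε ∧ x - ε • qR r ∈ closure C}
  have hZ : convexHull ℝ {x | x ∈ closure C ∧ ∃ q : Fin N → ℚ, x = qR q} ⊆ Z := by
    refine convexHull_min ?_ ?_
    · rintro x ⟨hxC, q, rfl⟩
      refine ⟨hxC, ℚ ∙ q, Submodule.subset_span ⟨q, Submodule.mem_span_singleton_self q, rfl⟩, ?_⟩
      intro r hr
      obtain ⟨a, rfl⟩ := Submodule.mem_span_singleton.1 hr
      refine ⟨1 / (|(a : ℝ)| + 1), by positivity, ?_⟩
      have h1 : qR q - (1 / (|(a : ℝ)| + 1)) • qR (a • q) = (1 - a / (|(a : ℝ)| + 1)) • qR q := by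
        rw [irr_qR_smul]
        module
      rw [h1]
      apply hC.closure_smul _ _ _ hxC
      rw [sub_nonneg, div_le_one (by positivity)]
      have := le_abs_self (a : ℝ)
      linarith
    · rintro x ⟨hxC, R, hxR, hRx⟩ y ⟨hyC, R', hyR, hRy⟩ a b ha hb hab
      refine ⟨hC.closure_add _ (hC.closure_smul _ ha _ hxC) _ (hC.closure_smul _ hb _ hyC), ?_⟩
      rcases ha.eq_or_lt with ha0 | ha0
      · rw [← ha0, zero_add] at hab
        rw [← ha0, hab, zero_smul, one_smul, zero_add]
        exact ⟨R', hyR, hRy⟩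
      rcases hb.eq_or_lt with hb0 | hb0
      · rw [← hb0, add_zero] at hab
        rw [← hb0, hab, zero_smul, one_smul, add_zero]
        exact ⟨R, hxR, hRx⟩
      refine ⟨R ⊔ R', ?_, ?_⟩
      · apply Submodule.add_mem
        · apply Submodule.smul_mem
          exact Submodule.span_mono (Set.image_mono (fun r hr => Submodule.mem_sup_left hr)) hxR
        · apply Submodule.smul_mem
          exact Submodule.span_mono (Set.image_mono (fun r hr => Submodule.mem_sup_right hr)) hyR
      · intro r hr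
        obtain ⟨r₁, hr₁, r₂, hr₂, rfl⟩ := Submodule.mem_sup.1 hr
        obtain ⟨ε₁, hε₁, h1⟩ := hRx r₁ hr₁
        obtain ⟨ε₂, hε₂, h2⟩ := hRy r₂ hr₂
        have shrink : ∀ (z : V N) (w : V N) (ε ε' : ℝ), z ∈ closure C → 0 < ε → 0 ≤ ε' → ε' ≤ ε →
            z - ε • w ∈ closure C → z - ε' • w ∈ closure C := by
          intro z w ε ε' hz hε hε' hle hzw
          have h3 : z - ε' • w = (1 - ε' / ε) • z + (ε' / ε) • (z - ε • w) := by
            have h4 : ε' / ε * ε = ε' := by field_simp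
            nth_rewrite 1 [← h4]
            module
          rw [h3]
          refine hC.closure_add _ (hC.closure_smul _ ?_ _ hz) _ (hC.closure_smul _ (by positivity) _ hzw)
          rw [sub_nonneg, div_le_one hε]
          exact hle
        refine ⟨min (a * ε₁) (b * ε₂), by positivity, ?_⟩
        have h5 : a • x + b • y - min (a * ε₁) (b * ε₂) • qR (r₁ + r₂) =
            a • (x - (min (a * ε₁) (b * ε₂) / a) • qR r₁) + b • (y - (min (a * ε₁) (b * ε₂) / b) • qR r₂) := by
          have h6 : a * (min (a * ε₁) (b * ε₂) / a) = min (a * ε₁) (b * ε₂) := by field_simp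
          have h7 : b * (min (a * ε₁) (b * ε₂) / b) = min (a * ε₁) (b * ε₂) := by field_simp
          rw [irr_qR_add, smul_sub, smul_sub, smul_smul, smul_smul, h6, h7]
          module
        rw [h5]
        refine hC.closure_add _ (hC.closure_smul _ ha _ ?_) _ (hC.closure_smul _ hb _ ?_)
        · refine shrink _ _ ε₁ _ hxC hε₁ (by positivity) ?_ h1
          rw [div_le_iff₀ ha0]
          exact (min_le_left (a * ε₁) (b * ε₂)).trans (le_of_eq (mul_comm _ _))
        · refine shrink _ _ ε₂ _ hyC hε₂ (by positivity) ?_ h2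
          rw [div_le_iff₀ hb0]
          exact (min_le_right (a * ε₁) (b * ε₂)).trans (le_of_eq (mul_comm _ _))
  obtain ⟨hxC, R, hxR, hRx⟩ := hZ hmem
  rw [irr_toR h, irr_toR u] at hxR
  have hhR := mem_of_irr R _ _ hθ hc hxR
  obtain ⟨ε, hε, h1⟩ := hRx _ hhR
  rw [← irr_toR h] at h1
  apply hx
  have h2 := hC.add_mem _ h1 _ (hC.smul _ hε _ hh)
  rwa [sub_add_cancel] at h2

end Pool.Agent.H57.IR
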