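import Mathlib

/-!
# Integral vectors on a hyperbola with irrational asymptotes
-/

set_option autoImplicit false

namespace Pool.Agent.H57.IR

theorem pell_seq {θ : ℝ} (hθ : Irrational θ) {s t : ℚ} (h : θ ^ 2 - s * θ + t = 0) :
    ∃ lam : ℝ, 1 < lam ∧ ∀ j : ℕ, ∃ x y : ℤ, (x : ℝ) - (s - θ) * y = lam ^ j ∧
      (x : ℝ) - θ * y = (lam⁻¹) ^ j := by
  obtain ⟨A, B, E, hA, hAs, hAt⟩ : ∃ A B E : ℤ, 0 < A ∧ (A : ℝ) * s = -B ∧ (A : ℝ) * t = E := by
    refine ⟨(s.den * t.den : ℕ), -(s.num * t.den), t.num * s.den, ?_, ?_, ?_⟩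
    · exact_mod_cast Nat.mul_pos s.den_pos t.den_pos
    · have h1 : (s : ℝ) * s.den = s.num := by exact_mod_cast Rat.mul_den_eq_num s
      push_cast
      linear_combination (t.den : ℝ) * h1
    · have h1 : (t : ℝ) * t.den = t.num := by exact_mod_cast Rat.mul_den_eq_num t
      push_cast
      linear_combination (s.den : ℝ) * h1
  have hq : (A : ℝ) * θ ^ 2 + B * θ + E = 0 := by
    linear_combination (A : ℝ) * h + θ * hAs - hAt
  obtain ⟨δ, hδ⟩ : ∃ δ : ℝ, δ = 2 * A * θ + B := ⟨_, rfl⟩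
  have hδ2 : δ ^ 2 = ((B ^ 2 - 4 * A * E : ℤ) : ℝ) := by
    push_cast
    rw [hδ]
    linear_combination 4 * (A : ℝ) * hq
  have hA0 : (A : ℝ) ≠ 0 := by exact_mod_cast hA.ne'
  have hirr : ∀ k : ℤ, δ ≠ k := by
    intro k hk
    apply hθ
    refine ⟨((k - B : ℤ) : ℚ) / (2 * A : ℤ), ?_⟩
    push_cast
    rw [div_eq_iff (by positivity)]
    rw [← hk, hδ]
    ring
  have hδ0 : δ ≠ 0 := by
    have := hirr 0
    simpa using this
  have hΔ : 0 < (B ^ 2 - 4 * A * E : ℤ) := by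
    have h1 : 0 < δ ^ 2 := by positivity
    rw [hδ2] at h1
    exact_mod_cast h1
  have hns : ¬ IsSquare (B ^ 2 - 4 * A * E : ℤ) := by
    rintro ⟨k, hk⟩
    rw [hk] at hδ2
    push_cast at hδ2
    have h1 : (δ - k) * (δ + k) = 0 := by linear_combination hδ2
    rcases mul_eq_zero.1 h1 with h2 | h2
    · exact hirr k (by linear_combination h2)
    · exact hirr (-k) (by push_cast; linear_combination h2)
  obtain ⟨T₀, U₀, hTU, hU₀⟩ := Pell.exists_of_not_isSquare hΔ hns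
  obtain ⟨T, U, hT, hUδ, hTU'⟩ : ∃ T U : ℤ, 1 ≤ T ∧ 0 < U * δ ∧ T ^ 2 - (B ^ 2 - 4 * A * E) * U ^ 2 = 1 := by
    have hT0 : T₀ ≠ 0 := by
      rintro rfl
      have h1 : 0 ≤ (B ^ 2 - 4 * A * E) * U₀ ^ 2 := mul_nonneg hΔ.le (sq_nonneg _)
      nlinarith
    have hUR : (U₀ : ℝ) * δ ≠ 0 := mul_ne_zero (by exact_mod_cast hU₀) hδ0
    rcases lt_or_gt_of_ne hUR with h1 | h1
    · refine ⟨|T₀|, -U₀, Int.one_le_abs hT0, ?_, ?_⟩
      · push_cast
        linarith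
      · rw [sq_abs]
        linear_combination hTU
    · refine ⟨|T₀|, U₀, Int.one_le_abs hT0, h1, ?_⟩
      rw [sq_abs]
      linear_combination hTU
  have hTR : (1 : ℝ) ≤ T := by exact_mod_cast hT
  have hTUR : (T : ℝ) ^ 2 - δ ^ 2 * U ^ 2 = 1 := by
    rw [hδ2]
    exact_mod_cast hTU'
  obtain ⟨lam, hlam⟩ : ∃ lam : ℝ, lam = T + U * δ := ⟨_, rfl⟩
  have hlam1 : 1 < lam := by
    rw [hlam]
    linarith
  have hinv : lam⁻¹ = T - U * δ := by
    rw [inv_eq_iff_eq_inv, eq_comm, inv_eq_iff_eq_inv]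
    have h1 : lam * (T - U * δ) = 1 := by
      rw [hlam]
      linear_combination hTUR
    exact (eq_inv_of_mul_eq_one_right h1)
  refine ⟨lam, hlam1, ?_⟩
  have hseq : ∀ j : ℕ, ∃ Tj Uj : ℤ, (Tj : ℝ) + Uj * δ = lam ^ j ∧ (Tj : ℝ) - Uj * δ = (lam⁻¹) ^ j := by
    intro j
    induction j with
    | zero => exact ⟨1, 0, by simp, by simp⟩
    | succ j ih =>
      obtain ⟨Tj, Uj, h1, h2⟩ := ih
      refine ⟨T * Tj + (B ^ 2 - 4 * A * E) * (U * Uj), T * Uj + U * Tj, ?_, ?_⟩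
      · have h3 : ((T * Tj + (B ^ 2 - 4 * A * E) * (U * Uj) : ℤ) : ℝ) = T * Tj + δ ^ 2 * (U * Uj) := by
          rw [hδ2]
          push_cast
          ring
        rw [h3, pow_succ lam j, ← h1, hlam]
        push_cast
        ring
      · have h3 : ((T * Tj + (B ^ 2 - 4 * A * E) * (U * Uj) : ℤ) : ℝ) = T * Tj + δ ^ 2 * (U * Uj) := by
          rw [hδ2]
          push_cast
          ring
        rw [h3, pow_succ lam⁻¹ j, ← h2, hinv]
        push_cast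
        ring
  intro j
  obtain ⟨Tj, Uj, h1, h2⟩ := hseq j
  refine ⟨Tj - B * Uj, 2 * A * Uj, ?_, ?_⟩
  · rw [← h1, hδ]
    push_cast
    linear_combination (-2 * (Uj : ℝ)) * hAs
  · rw [← h2, hδ]
    push_cast
    ring

end Pool.Agent.H57.IR
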