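import Pool.Agent.H57.IR.Fund
import Pool.Agent.H57.IR.Form
import Pool.Agent.H57.IR.Pell
import Pool.Agent.H57.IR.Irr

/-!
# Definitions for the theorem on irrational nef classes of small numerical dimension
-/

set_option autoImplicit false

namespace Pool.Agent.H57.IR

open Pool.Agent.H57.KM

/-- the top intersection form of `N^1(Y)`, with the finiteness theorem: for every `B` the ample integral classes
of degree at most `B` lie in finitely many orbits of the group -/
structure TopForm {N d : ℕ} (D : NefData N) (I : MultilinearMap ℝ (fun _ : Fin d => V N) ℝ) : Prop where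
  int : ∀ s : Fin d → Fin N → ℤ, ∃ z : ℤ, I (fun i => toR (s i)) = z
  inv : ∀ g ∈ D.G, ∀ x : Fin d → V N, I (fun i => act g (x i)) = I x
  pos : ∀ x ∈ D.amp, 0 < I (fun _ => x)
  fin : ∀ B : ℝ, ∃ S : Finset (Fin N → ℤ), ∀ s : Fin N → ℤ, toR s ∈ D.amp → I (fun _ => toR s) ≤ B →
    ∃ g ∈ D.G, ∃ s' ∈ S, toR s = act g (toR s')

open Classical in
/-- the numerical dimension of `p` is at most `m`: `p ^ (m + 1) = 0` -/
def NumDimLe {N d : ℕ} (I : MultilinearMap ℝ (fun _ : Fin d => V N) ℝ) (p : V N) (m : ℕ) : Prop :=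
  ∀ x : Fin d → V N, m < (Finset.univ.filter (fun i => x i = p)).card → I x = 0

/-- Q1 for the slice of the effective nef cone by the subspace `W`, for the stabiliser of `W` -/
def SliceQ1 {N : ℕ} (D : NefData N) (W : Submodule ℝ (V N)) : Prop :=
  ∃ P : Set (V N), RatPoly P ∧ closure D.amp ∩ D.eff ∩ W = ⋃ g ∈ stab D.G W, act g '' P ∧
    ∀ g ∈ stab D.G W, (∃ x ∈ W, act g x ≠ x) → Disjoint (relInt W P) (act g '' relInt W P)

/-- if `W` is the whole space, this is Q1 -/
theorem SliceQ1.q1 {N : ℕ} {D : NefData N} (h : SliceQ1 D ⊤) : D.Q1 := by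
  obtain ⟨P, hP, hcov, hdis⟩ := h
  have hst : stab D.G (⊤ : Submodule ℝ (V N)) = {g | g ∈ D.G} := by
    ext g
    constructor
    · intro hg
      exact hg.1
    · intro hg
      exact ⟨hg, fun x => ⟨fun _ => Submodule.mem_top, fun _ => Submodule.mem_top⟩⟩
  have hri : relInt (⊤ : Submodule ℝ (V N)) P = interior P := by
    ext x
    rw [mem_interior]
    constructor
    · rintro ⟨-, U, hU, hxU, hUP⟩
      refine ⟨U, ?_, hU, hxU⟩
      intro y hy
      exact hUP ⟨hy, Submodule.mem_top⟩
    · rintro ⟨U, hUP, hU, hxU⟩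
      exact ⟨Submodule.mem_top, U, hU, hxU, fun y hy => hUP hy.1⟩
  refine ⟨P, hP, ?_, ?_⟩
  · rw [hst] at hcov
    rw [Submodule.top_coe, Set.inter_univ] at hcov
    exact hcov
  · intro g hg hne
    rw [hri] at hdis
    refine hdis g (by rw [hst]; exact hg) ?_
    by_contra hx
    push Not at hx
    apply hne
    apply act_inj
    intro x
    rw [act_one]
    exact hx x Submodule.mem_top

end Pool.Agent.H57.IR
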