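import Pool.Agent.H57.KM.DualPt

/-!
# Infinitely many ample classes of bounded degree on a hyperbola give an automorphism
-/

set_option autoImplicit false

namespace Pool.Agent.H57.IR

open Pool.Agent.H57.KM

/-- the action on integral vectors -/
def actZ {n : ℕ} (g : GL (Fin n) ℤ) (s : Fin n → ℤ) : Fin n → ℤ :=
  (g : Matrix (Fin n) (Fin n) ℤ).mulVec s

theorem toR_actZ {n : ℕ} (g : GL (Fin n) ℤ) (s : Fin n → ℤ) : toR (actZ g s) = act g (toR s) := by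
  funext i
  unfold toR actZ act
  simp only [Matrix.mulVec, dotProduct, Matrix.map_apply]
  push_cast
  rfl

theorem toR_add {n : ℕ} (s t : Fin n → ℤ) : toR (s + t) = toR s + toR t := by
  funext i
  simp [toR]

theorem act_sub {n : ℕ} (g : GL (Fin n) ℤ) (x y : V n) : act g (x - y) = act g x - act g y := by
  unfold act
  rw [Matrix.mulVec_sub]

theorem dyn_finite_ball {n : ℕ} (R : ℝ) : {v : Fin n → ℤ | ‖toR v‖ ≤ R}.Finite := by
  refine (Set.Finite.pi (t := fun _ : Fin n => Set.Icc (-⌈R⌉) ⌈R⌉) (fun _ => Set.finite_Icc _ _)).subset ?_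
  intro v hv i _
  have h1 : |(v i : ℝ)| ≤ R := by
    have h2 := norm_le_pi_norm (toR v) i
    rw [Real.norm_eq_abs] at h2
    exact h2.trans hv
  have h3 : |(v i : ℝ)| ≤ ⌈R⌉ := h1.trans (Int.le_ceil R)
  rw [← Int.cast_abs, Int.cast_le, abs_le] at h3
  exact h3

/-- an ample class has finitely many decompositions into two ample classes -/
theorem dec_finite {N : ℕ} {C : Set (V N)} (h : IsAmp C) (s : Fin N → ℤ) :
    {q : (Fin N → ℤ) × (Fin N → ℤ) | toR q.1 ∈ C ∧ toR q.2 ∈ C ∧ q.1 + q.2 = s}.Finite := by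
  obtain ⟨η, c, hc, hη⟩ := dual_ne h
  have hxi : ∀ x y : V N, xi η (x + y) = xi η x + xi η y := by
    intro x y
    unfold xi
    rw [← Finset.sum_add_distrib]
    refine Finset.sum_congr rfl (fun i _ => ?_)
    rw [Pi.add_apply, mul_add]
  have hfin := dyn_finite_ball (n := N) (xi η (toR s) / c)
  refine Set.Finite.of_finite_image (f := Prod.fst) (hfin.subset ?_) ?_
  · rintro _ ⟨⟨v, w⟩, ⟨hv, hw, hvw⟩, rfl⟩
    change ‖toR v‖ ≤ _
    rw [le_div_iff₀ hc, mul_comm]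
    refine (hη _ (subset_closure hv)).trans ?_
    simp only at hvw
    rw [← hvw, toR_add, hxi]
    have h2 := hη _ (subset_closure hw)
    have h3 : 0 ≤ c * ‖toR w‖ := mul_nonneg hc.le (norm_nonneg _)
    linarith
  · rintro ⟨v, w⟩ ⟨_, _, hvw⟩ ⟨v', w'⟩ ⟨_, _, hvw'⟩ hvv
    simp only at hvw hvw' hvv
    subst hvv
    rw [← hvw'] at hvw
    rw [add_left_cancel hvw]

theorem auto_of_fin {N : ℕ} {C : Set (V N)} (hC : IsAmp C) (G : Subgroup (GL (Fin N) ℤ))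
    (hG : ∀ g ∈ G, ∀ x ∈ C, act g x ∈ C) (F : V N → ℝ)
    (hfin : ∀ B : ℝ, ∃ S : Finset (Fin N → ℤ), ∀ s : Fin N → ℤ, toR s ∈ C → F (toR s) ≤ B →
      ∃ g ∈ G, ∃ s' ∈ S, toR s = act g (toR s'))
    (e₁ e₂ : V N) (he₁ : e₁ ∈ closure C) (hh : e₁ + e₂ ∈ C) (c : ℝ) (m : ℕ)
    (hF : ∀ a b : ℝ, F (a • e₁ + b • e₂) = c * (a * b) ^ m)
    (lam : ℝ) (hlam : 1 < lam) (v : ℕ → Fin N → ℤ)
    (hv : ∀ j, toR (v j) = lam ^ j • e₁ + (lam⁻¹) ^ j • e₂) :
    ∃ g ∈ G, ∃ k : ℕ, 0 < k ∧ act g e₁ = lam ^ k • e₁ ∧ act g e₂ = (lam⁻¹) ^ k • e₂ := by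
  have hl0 : 0 < lam := by linarith
  have hvC : ∀ j, toR (v j) ∈ C := by
    intro j
    have h1 : toR (v j) = (lam ^ j - (lam⁻¹) ^ j) • e₁ + (lam⁻¹) ^ j • (e₁ + e₂) := by
      rw [hv]
      module
    rw [h1]
    apply hC.add_mem
    · apply hC.closure_smul _ _ _ he₁
      have h2 : (lam⁻¹) ^ j ≤ 1 := pow_le_one₀ (by positivity) (inv_le_one_of_one_le₀ hlam.le)
      have h3 : 1 ≤ lam ^ j := one_le_pow₀ hlam.le
      linarith
    · exact hC.smul _ (by positivity) _ hh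
  obtain ⟨S, hS⟩ := hfin (c * ((1 + lam) * (1 + lam⁻¹)) ^ m)
  have hz : ∀ j, ∃ g ∈ G, ∃ s' ∈ S, toR (v j + v (j + 1)) = act g (toR s') := by
    intro j
    apply hS
    · rw [toR_add]
      exact hC.add _ (hvC j) _ (hvC (j + 1))
    · have h1 : toR (v j + v (j + 1)) = (lam ^ j * (1 + lam)) • e₁ + ((lam⁻¹) ^ j * (1 + lam⁻¹)) • e₂ := by
        rw [toR_add, hv, hv, pow_succ, pow_succ]
        module
      rw [h1, hF]
      apply le_of_eq
      congr 2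
      have h2 : lam ^ j * (lam⁻¹) ^ j = 1 := by
        rw [← mul_pow, mul_inv_cancel₀ hl0.ne', one_pow]
      linear_combination ((1 + lam) * (1 + lam⁻¹)) * h2
  choose g hg s' hs' hgs using hz
  let T : Set ((Fin N → ℤ) × (Fin N → ℤ)) :=
    ⋃ s ∈ (S : Set (Fin N → ℤ)), {q | toR q.1 ∈ C ∧ toR q.2 ∈ C ∧ q.1 + q.2 = s}
  have hT : T.Finite := Set.Finite.biUnion S.finite_toSet (fun s _ => dec_finite hC s)
  have hmem : ∀ j, ((actZ (g j)⁻¹ (v j), actZ (g j)⁻¹ (v (j + 1))) : (Fin N → ℤ) × (Fin N → ℤ)) ∈ T := by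
    intro j
    refine Set.mem_biUnion (hs' j) ?_
    refine ⟨?_, ?_, ?_⟩
    · change toR (actZ (g j)⁻¹ (v j)) ∈ C
      rw [toR_actZ]
      exact hG _ (G.inv_mem (hg j)) _ (hvC j)
    · change toR (actZ (g j)⁻¹ (v (j + 1))) ∈ C
      rw [toR_actZ]
      exact hG _ (G.inv_mem (hg j)) _ (hvC (j + 1))
    · change actZ (g j)⁻¹ (v j) + actZ (g j)⁻¹ (v (j + 1)) = s' j
      have h1 : toR (actZ (g j)⁻¹ (v j) + actZ (g j)⁻¹ (v (j + 1))) = toR (s' j) := by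
        rw [toR_add, toR_actZ, toR_actZ, ← act_add, ← toR_add, hgs j, ← act_mul, inv_mul_cancel, act_one]
      funext i
      have h2 := congrFun h1 i
      unfold toR at h2
      exact_mod_cast h2
  obtain ⟨j, l, hjl, hEq⟩ := hT.exists_lt_map_eq_of_forall_mem hmem
  rw [Prod.mk.injEq] at hEq
  obtain ⟨hE1, hE2⟩ := hEq
  have key : ∀ a b : Fin N → ℤ, actZ (g j)⁻¹ a = actZ (g l)⁻¹ b → act (g l * (g j)⁻¹) (toR a) = toR b := by
    intro a b hab
    rw [act_mul, ← toR_actZ, hab, toR_actZ, ← act_mul, mul_inv_cancel, act_one]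
  have k1 := key _ _ hE1
  have k2 := key _ _ hE2
  obtain ⟨k, rfl⟩ := Nat.exists_eq_add_of_lt hjl
  refine ⟨g (j + k + 1) * (g j)⁻¹, G.mul_mem (hg _) (G.inv_mem (hg _)), k + 1, Nat.succ_pos k, ?_, ?_⟩
  · have h1 : (lam ^ j * (lam - lam⁻¹)) • e₁ = toR (v (j + 1)) - lam⁻¹ • toR (v j) := by
      rw [hv, hv, pow_succ, pow_succ]
      module
    have h2 : (lam ^ (j + k + 1) * (lam - lam⁻¹)) • e₁ =
        toR (v (j + k + 1 + 1)) - lam⁻¹ • toR (v (j + k + 1)) := by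
      rw [hv, hv, pow_succ lam (j + k + 1), pow_succ lam⁻¹ (j + k + 1)]
      module
    have h3 := congrArg (act (g (j + k + 1) * (g j)⁻¹)) h1
    rw [act_smul, act_sub, act_smul, k1, k2, ← h2] at h3
    have h4 : lam ^ j * (lam - lam⁻¹) ≠ 0 := by
      have h5 : lam⁻¹ < 1 := inv_lt_one_of_one_lt₀ hlam
      have h6 : 0 < lam - lam⁻¹ := by linarith
      positivity
    have h7 : (lam ^ j * (lam - lam⁻¹)) • act (g (j + k + 1) * (g j)⁻¹) e₁ =
        (lam ^ j * (lam - lam⁻¹)) • (lam ^ (k + 1) • e₁) := by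
      rw [h3, smul_smul]
      congr 1
      ring
    exact smul_right_injective _ h4 h7
  · have h1 : ((lam⁻¹) ^ j * (lam⁻¹ - lam)) • e₂ = toR (v (j + 1)) - lam • toR (v j) := by
      rw [hv, hv, pow_succ, pow_succ]
      module
    have h2 : ((lam⁻¹) ^ (j + k + 1) * (lam⁻¹ - lam)) • e₂ =
        toR (v (j + k + 1 + 1)) - lam • toR (v (j + k + 1)) := by
      rw [hv, hv, pow_succ lam (j + k + 1), pow_succ lam⁻¹ (j + k + 1)]
      module
    have h3 := congrArg (act (g (j + k + 1) * (g j)⁻¹)) h1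
    rw [act_smul, act_sub, act_smul, k1, k2, ← h2] at h3
    have h4 : (lam⁻¹) ^ j * (lam⁻¹ - lam) ≠ 0 := by
      have h5 : lam⁻¹ < 1 := inv_lt_one_of_one_lt₀ hlam
      have h6 : lam⁻¹ - lam < 0 := by linarith
      exact mul_ne_zero (by positivity) h6.ne
    have h7 : ((lam⁻¹) ^ j * (lam⁻¹ - lam)) • act (g (j + k + 1) * (g j)⁻¹) e₂ =
        ((lam⁻¹) ^ j * (lam⁻¹ - lam)) • ((lam⁻¹) ^ (k + 1) • e₂) := by
      rw [h3, smul_smul]
      congr 1
      ring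
    exact smul_right_injective _ h4 h7

end Pool.Agent.H57.IR
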