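import Pool.Agent.H57.IR.Defs

/-!
# Irrational nef classes of small numerical dimension
-/

set_option autoImplicit false

namespace Pool.Agent.H57.IR

open Pool.Agent.H57.KM

theorem main {N d m : ℕ} (D : NefData N) (I : MultilinearMap ℝ (fun _ : Fin d => V N) ℝ) (hI : TopForm D I)
    (hd : 0 < d) (hm : 2 * m ≤ d) (h u : Fin N → ℤ) (hh : toR h ∈ D.amp) (p : V N) (hp : p ∈ closure D.amp)
    (hpW : p ∈ Submodule.span ℝ {toR h, toR u}) (hirr : ∀ (q : Fin N → ℚ) (t : ℝ), p ≠ t • qR q)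
    (hnd : NumDimLe I p m) :
    SliceQ1 D (Submodule.span ℝ {toR h, toR u}) ∧ (N = 2 → D.Q1) ∧ d = 2 * m ∧
      ∃ (p' : V N) (c : ℝ) (g : GL (Fin N) ℤ) (μ : ℝ), p' ∈ Submodule.span ℝ {toR h, toR u} ∧ g ∈ D.G ∧
        1 < μ ∧ act g p = μ • p ∧ act g p' = μ⁻¹ • p' ∧
        (∀ x ∈ Submodule.span ℝ {toR h, toR u}, ∃ a b : ℝ, x = a • p + b • p') ∧
        (∀ a b : ℝ, I (fun _ => a • p + b • p') = c * (a * b) ^ m) ∧
        (∀ a b : ℝ, a • p + b • p' ∈ closure D.amp ↔ 0 ≤ a ∧ 0 ≤ b) ∧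
        ∀ a b : ℝ, a • p + b • p' ∈ closure D.amp ∩ D.eff ↔ (0 < a ∧ 0 < b) ∨ (a = 0 ∧ b = 0) := by
  classical
  set W : Submodule ℝ (V N) := Submodule.span ℝ {toR h, toR u} with hWdef
  have hhW : toR h ∈ W := Submodule.subset_span (by simp)
  have huW : toR u ∈ W := Submodule.subset_span (by simp)
  obtain ⟨α, b, hpab⟩ := Submodule.mem_span_pair.1 hpW
  -- `b ≠ 0`
  have hb : b ≠ 0 := by
    rintro rfl
    apply hirr (fun i => (h i : ℚ)) α
    rw [← irr_toR, ← hpab, zero_smul, add_zero]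
  obtain ⟨θ, hθ⟩ : ∃ θ : ℝ, θ = α / b := ⟨_, rfl⟩
  have hpθ : p = b • (θ • toR h + toR u) := by
    rw [hθ, ← hpab, smul_add, smul_smul, mul_div_cancel₀ _ hb]
  have hθirr : Irrational θ := by
    rintro ⟨q, hq⟩
    apply hirr (q • (fun i => (h i : ℚ)) + fun i => (u i : ℚ)) b
    rw [irr_qR_add, irr_qR_smul, ← irr_toR, ← irr_toR, hq, hpθ]
  have hIh : 0 < I (fun _ => toR h) := hI.pos _ hh
  obtain ⟨hdm, s, t, hst, hform⟩ := form_quad (m := m) I hd (toR h) (toR u) p (fun S => by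
    obtain ⟨z, hz⟩ := hI.int (S.piecewise (fun _ => h) (fun _ => u))
    refine ⟨z, ?_⟩
    rw [← hz]
    congr 1
    funext i
    by_cases hi : i ∈ S
    · simp [hi]
    · simp [hi]) hIh.ne' hθirr hb hpθ (fun x hx => hnd x (by convert hx)) hm
  have hm0 : 0 < m := by omega
  obtain ⟨θ', hθ'⟩ : ∃ θ' : ℝ, θ' = s - θ := ⟨_, rfl⟩
  have hθ'irr : Irrational θ' := by
    rw [hθ']
    exact (irrational_ratCast_sub_iff).2 hθirr
  have hprod : θ * θ' = t := by
    rw [hθ']
    linear_combination (-1 : ℝ) * hst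
  have hδ : θ - θ' ≠ 0 := by
    intro h0
    apply hθirr
    refine ⟨s / 2, ?_⟩
    push_cast
    rw [hθ'] at h0
    linarith
  have hquad : ∀ x y : ℝ, I (fun _ => x • toR h + y • toR u) =
      I (fun _ => toR h) * ((x - θ' * y) * (x - θ * y)) ^ m := by
    intro x y
    rw [hform]
    congr 2
    rw [← hprod, hθ']
    ring
  -- sign
  have hsgn : 0 < b * (θ - θ') := by
    by_contra hneg
    have hneg' : b * (θ - θ') < 0 := lt_of_le_of_ne (not_lt.1 hneg) (mul_ne_zero hb hδ)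
    have h1 : p + (-(b * (θ - θ'))) • toR h ∈ D.amp :=
      D.isAmp.add_mem _ hp _ (D.isAmp.smul _ (by linarith) _ hh)
    have h2 := hI.pos _ h1
    have h3 : p + (-(b * (θ - θ'))) • toR h = (b * θ') • toR h + b • toR u := by
      rw [hpθ]
      module
    rw [h3, hquad] at h2
    have h4 : (b * θ' - θ' * b) * (b * θ' - θ * b) = 0 := by ring
    rw [h4, zero_pow hm0.ne', mul_zero] at h2
    exact lt_irrefl _ h2
  -- the eigenvectors
  let e₁ : V N := (θ - θ')⁻¹ • (θ • toR h + toR u)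
  let e₂ : V N := (-(θ - θ')⁻¹) • (θ' • toR h + toR u)
  have hpe : p = (b * (θ - θ')) • e₁ := by
    change p = (b * (θ - θ')) • ((θ - θ')⁻¹ • (θ • toR h + toR u))
    rw [smul_smul, mul_assoc, mul_inv_cancel₀ hδ, mul_one]
    exact hpθ
  have he₁p : e₁ = (b * (θ - θ'))⁻¹ • p := by
    rw [hpe, smul_smul, inv_mul_cancel₀ hsgn.ne', one_smul]
  have hcoord : ∀ x y : ℝ, x • toR h + y • toR u = (x - θ' * y) • e₁ + (x - θ * y) • e₂ := by
    intro x y
    have h1 : (x - θ' * y) • e₁ + (x - θ * y) • e₂ =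
        ((θ - θ')⁻¹ * (θ - θ')) • (x • toR h + y • toR u) := by
      change (x - θ' * y) • ((θ - θ')⁻¹ • (θ • toR h + toR u)) +
        (x - θ * y) • ((-(θ - θ')⁻¹) • (θ' • toR h + toR u)) = _
      module
    rw [h1, inv_mul_cancel₀ hδ, one_smul]
  have hsum : toR h = e₁ + e₂ := by
    have h1 := hcoord 1 0
    simpa using h1
  have he₁cl : e₁ ∈ closure D.amp := by
    rw [he₁p]
    exact D.isAmp.closure_smul _ (inv_nonneg.2 hsgn.le) _ hp
  have hFe : ∀ a c : ℝ, I (fun _ => a • e₁ + c • e₂) = I (fun _ => toR h) * (a * c) ^ m := by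
    intro a c
    have h1 : a • e₁ + c • e₂ = ((a * θ - c * θ') / (θ - θ')) • toR h + ((a - c) / (θ - θ')) • toR u := by
      rw [hcoord]
      congr 2
      · field_simp
        ring
      · field_simp
        ring
    rw [h1, hquad]
    congr 2
    field_simp
    ring
  -- the integral vectors
  obtain ⟨lam, hlam, hseq⟩ := pell_seq hθirr hst
  choose xs ys hxy1 hxy2 using hseq
  let v : ℕ → Fin N → ℤ := fun j => xs j • h + ys j • u
  have hv : ∀ j, toR (v j) = lam ^ j • e₁ + (lam⁻¹) ^ j • e₂ := by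
    intro j
    have h1 : toR (v j) = (xs j : ℝ) • toR h + (ys j : ℝ) • toR u := by
      funext i
      simp [v, toR]
    rw [h1, hcoord, ← hxy1 j, ← hxy2 j, hθ']
  obtain ⟨g, hg, k, hk, hge₁, hge₂⟩ := auto_of_fin D.isAmp D.G D.act_amp (fun x => I (fun _ => x)) hI.fin
    e₁ e₂ he₁cl (by rw [← hsum]; exact hh) _ m hFe lam hlam v hv
  have hμ : 1 < lam ^ k := one_lt_pow₀ hlam hk.ne'
  rw [inv_pow] at hge₂
  have he₂cl : e₂ ∈ closure D.amp :=
    e2_closure D.isAmp D.act_amp hg hμ hge₁ hge₂ (by rw [← hsum]; exact hh)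
  have he₁W : e₁ ∈ W := W.smul_mem _ (W.add_mem (W.smul_mem _ hhW) huW)
  have he₂W : e₂ ∈ W := W.smul_mem _ (W.add_mem (W.smul_mem _ hhW) huW)
  have X : Ctx D.amp D.G (fun x => I (fun _ => x)) W e₁ e₂ (I (fun _ => toR h)) m :=
    { hC := D.isAmp
      hG := D.act_amp
      inv := fun g hg x => hI.inv g hg (fun _ => x)
      pos := hI.pos
      sum := by rw [← hsum]; exact hh
      cl₁ := he₁cl
      cl₂ := he₂cl
      m0 := hm0
      form := hFe
      W₁ := he₁W
      W₂ := he₂W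
      span := by
        intro x hx
        obtain ⟨x₁, x₂, rfl⟩ := Submodule.mem_span_pair.1 hx
        exact ⟨_, _, hcoord _ _⟩ }
  -- the effective nef cone in the plane
  have hz0 : (0 : V N) ∈ closure D.amp ∩ D.eff := ⟨D.isAmp.zero_closure, D.eff_zero⟩
  have hnotC : ∀ a c : ℝ, ¬ (0 < a ∧ 0 < c) → a • e₁ + c • e₂ ∉ D.amp := by
    intro a c hac hmem
    exact hac ((X.mem_iff a c).1 hmem)
  have hne : ∀ a c : ℝ, a • e₁ + c • e₂ ∈ closure D.amp ∩ D.eff ↔ (0 < a ∧ 0 < c) ∨ (a = 0 ∧ c = 0) := by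
    intro a c
    constructor
    · intro hmem
      obtain ⟨ha, hc⟩ := (closure_iff X.hC _ X.pos X.sum X.m0 X.form X.cl₁ X.cl₂ a c).1 hmem.1
      rcases ha.eq_or_lt with ha0 | ha0
      · rcases hc.eq_or_lt with hc0 | hc0
        · exact Or.inr ⟨ha0.symm, hc0.symm⟩
        · exfalso
          have h1 := hnotC a c (by rintro ⟨h2, -⟩; linarith)
          have h2 := D.nef_eff hmem
          rw [← ha0, zero_smul, zero_add] at h1 h2
          have h3 : c • e₂ = (c * -(θ - θ')⁻¹) • (θ' • toR h + toR u) := by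
            change c • ((-(θ - θ')⁻¹) • (θ' • toR h + toR u)) = _
            rw [smul_smul]
          rw [h3] at h1 h2
          exact not_mem_hull D.isAmp h u hh hθ'irr (mul_ne_zero hc0.ne' (neg_ne_zero.2 (inv_ne_zero hδ))) h1 h2
      · rcases hc.eq_or_lt with hc0 | hc0
        · exfalso
          have h1 := hnotC a c (by rintro ⟨-, h2⟩; linarith)
          have h2 := D.nef_eff hmem
          rw [← hc0, zero_smul, add_zero] at h1 h2
          have h3 : a • e₁ = (a * (θ - θ')⁻¹) • (θ • toR h + toR u) := by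
            change a • ((θ - θ')⁻¹ • (θ • toR h + toR u)) = _
            rw [smul_smul]
          rw [h3] at h1 h2
          exact not_mem_hull D.isAmp h u hh hθirr (mul_ne_zero ha0.ne' (inv_ne_zero hδ)) h1 h2
        · exact Or.inl ⟨ha0, hc0⟩
    · rintro (hac | ⟨rfl, rfl⟩)
      · have h1 := (X.mem_iff a c).2 hac
        exact ⟨subset_closure h1, D.amp_eff h1⟩
      · rw [zero_smul, zero_smul, add_zero]
        exact hz0
  have hslice : closure D.amp ∩ D.eff ∩ W = (D.amp ∩ W) ∪ {0} := by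
    apply Set.Subset.antisymm
    · rintro x ⟨hx, hxW⟩
      obtain ⟨a, c, rfl⟩ := X.span x hxW
      rcases (hne a c).1 hx with hac | ⟨rfl, rfl⟩
      · exact Or.inl ⟨(X.mem_iff a c).2 hac, hxW⟩
      · right
        rw [zero_smul, zero_smul, add_zero]
        exact Set.mem_singleton _
    · rintro x (⟨hx, hxW⟩ | hx)
      · exact ⟨⟨subset_closure hx, D.amp_eff hx⟩, hxW⟩
      · rw [Set.mem_singleton_iff] at hx
        rw [hx]
        exact ⟨hz0, W.zero_mem⟩
  have hSQ : SliceQ1 D W := by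
    obtain ⟨P, hP, hcov, hdis⟩ := X.fund hsum hg hμ hge₁ hge₂
    exact ⟨P, hP, by rw [hslice, hcov], hdis⟩
  refine ⟨hSQ, ?_, hdm, e₂, I (fun _ => toR h) * (b * (θ - θ')) ^ m, g, lam ^ k, he₂W, hg, hμ, ?_, hge₂, ?_, ?_,
    ?_, ?_⟩
  · intro hN
    apply SliceQ1.q1
    have hW : W = ⊤ := by
      apply Submodule.eq_top_of_finrank_eq
      have hli : LinearIndependent ℝ ![e₁, e₂] := by
        rw [LinearIndependent.pair_iff]
        intro x y hxy
        exact X.indep (a := x) (b := y) (a' := 0) (b' := 0) (by rw [hxy]; simp)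
      have h1 : Module.finrank ℝ (V N) = 2 := by
        rw [Module.finrank_fintype_fun_eq_card, Fintype.card_fin, hN]
      have h2 : 2 ≤ Module.finrank ℝ W := by
        have h3 : Submodule.span ℝ (Set.range ![e₁, e₂]) ≤ W := by
          rw [Submodule.span_le]
          rintro _ ⟨i, rfl⟩
          fin_cases i
          · exact he₁W
          · exact he₂W
        have h4 := finrank_span_eq_card hli
        rw [Fintype.card_fin] at h4
        exact h4.ge.trans (Submodule.finrank_mono h3)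
      have h3 : Module.finrank ℝ W ≤ Module.finrank ℝ (V N) := Submodule.finrank_le W
      omega
    rwa [hW] at hSQ
  · have h1 : act g p = (b * (θ - θ')) • act g e₁ := by
      conv_lhs => rw [hpe]
      exact act_smul _ _ _
    rw [h1, hge₁, smul_comm, ← hpe]
  · intro x hx
    obtain ⟨a, c, rfl⟩ := X.span x hx
    refine ⟨a * (b * (θ - θ'))⁻¹, c, ?_⟩
    rw [mul_smul, ← he₁p]
  · intro a c
    have h1 : a • p + c • e₂ = (a * (b * (θ - θ'))) • e₁ + c • e₂ := by
      rw [hpe, smul_smul]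
    rw [h1, hFe, mul_assoc (I fun _ => toR h), ← mul_pow]
    congr 2
    ring
  · intro a c
    have h1 : a • p + c • e₂ = (a * (b * (θ - θ'))) • e₁ + c • e₂ := by
      rw [hpe, smul_smul]
    rw [h1, closure_iff X.hC _ X.pos X.sum X.m0 X.form X.cl₁ X.cl₂, mul_nonneg_iff_of_pos_right hsgn]
  · intro a c
    have h1 : a • p + c • e₂ = (a * (b * (θ - θ'))) • e₁ + c • e₂ := by
      rw [hpe, smul_smul]
    rw [h1, hne, mul_pos_iff_of_pos_right hsgn, mul_eq_zero, or_iff_left hsgn.ne']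

end Pool.Agent.H57.IR
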