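import Pool.Agent.H57.IR.Slice

/-!
# The fundamental domain
-/

set_option autoImplicit false

namespace Pool.Agent.H57.IR

open Pool.Agent.H57.KM

variable {N : ℕ} {C : Set (V N)} {G : Subgroup (GL (Fin N) ℤ)} {F : V N → ℝ} {W : Submodule ℝ (V N)}
  {e₁ e₂ : V N} {c : ℝ} {m : ℕ}

/-- the cone spanned by two integral vectors -/
def pairCone (h₁ h₂ : Fin N → ℤ) : Set (V N) :=
  {x | ∃ α β : ℝ, 0 ≤ α ∧ 0 ≤ β ∧ x = α • toR h₁ + β • toR h₂}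

theorem ratPoly_pair (h₁ h₂ : Fin N → ℤ) (hne : h₁ ≠ h₂) : RatPoly (pairCone h₁ h₂) := by
  classical
  refine ⟨{h₁, h₂}, ?_⟩
  ext x
  constructor
  · rintro ⟨α, β, hα, hβ, rfl⟩
    refine ⟨fun s => if s = h₁ then α else if s = h₂ then β else 0, fun s => ?_, ?_⟩
    · change 0 ≤ (if s = h₁ then α else if s = h₂ then β else 0)
      split_ifs
      · exact hα
      · exact hβ
      · exact le_rfl
    · rw [Finset.sum_pair hne]
      simp [hne.symm]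
  · rintro ⟨c, hc, rfl⟩
    exact ⟨c h₁, c h₂, hc _, hc _, Finset.sum_pair hne⟩

theorem relInt_sub {P : Set (V N)} {x w : V N} (hx : x ∈ relInt W P) (hw : w ∈ W) :
    ∃ ε : ℝ, 0 < ε ∧ x - ε • w ∈ P := by
  obtain ⟨hxW, U, hU, hxU, hUP⟩ := hx
  have hcont : Continuous (fun ε : ℝ => x - ε • w) := by fun_prop
  have h1 : (fun ε : ℝ => x - ε • w) ⁻¹' U ∈ nhds (0 : ℝ) := by
    apply hcont.continuousAt.preimage_mem_nhds
    apply hU.mem_nhds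
    simpa using hxU
  obtain ⟨δ, hδ, h2⟩ := Metric.mem_nhds_iff.1 h1
  refine ⟨δ / 2, by positivity, hUP ⟨?_, W.sub_mem hxW (W.smul_mem _ hw)⟩⟩
  apply h2
  rw [Metric.mem_ball, dist_zero_right, Real.norm_eq_abs, abs_of_pos (by positivity)]
  linarith

/-- the cell: coordinates of the points of the cone -/
theorem Ctx.cell (X : Ctx C G F W e₁ e₂ c m) {h h₂ : Fin N → ℤ} (hh : toR h = e₁ + e₂) {q κ : ℝ} (hq : 0 < q)
    (hκ : 1 < κ) (hh₂ : toR h₂ = (κ * q) • e₁ + q • e₂) (A B : ℝ) :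
    A • e₁ + B • e₂ ∈ pairCone h h₂ ↔ B ≤ A ∧ A ≤ κ * B := by
  constructor
  · rintro ⟨α, β, hα, hβ, hx⟩
    have h1 : α • toR h + β • toR h₂ = (α + β * (κ * q)) • e₁ + (α + β * q) • e₂ := by
      rw [hh, hh₂]
      module
    rw [h1] at hx
    obtain ⟨h2, h3⟩ := X.indep hx
    rw [h2, h3]
    have h4 : 0 ≤ β * q := by positivity
    constructor
    · nlinarith
    · nlinarith
  · rintro ⟨h1, h2⟩
    have hd : 0 < κ * q - q := by nlinarith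
    refine ⟨q * (κ * B - A) / (κ * q - q), (A - B) / (κ * q - q),
      div_nonneg (mul_nonneg hq.le (by linarith)) hd.le, div_nonneg (by linarith) hd.le, ?_⟩
    rw [hh, hh₂]
    have h3 : q * (κ * B - A) / (κ * q - q) + (A - B) / (κ * q - q) * (κ * q) = A := by
      rw [div_mul_eq_mul_div, ← add_div, div_eq_iff hd.ne']
      ring
    have h4 : q * (κ * B - A) / (κ * q - q) + (A - B) / (κ * q - q) * q = B := by
      rw [div_mul_eq_mul_div, ← add_div, div_eq_iff hd.ne']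
      ring
    have key : ∀ α β : ℝ, α + β * (κ * q) = A → α + β * q = B →
        A • e₁ + B • e₂ = α • (e₁ + e₂) + β • ((κ * q) • e₁ + q • e₂) := by
      intro α β h5 h6
      rw [← h5, ← h6]
      module
    exact key _ _ h3 h4

/-- coordinates of the interior points -/
theorem Ctx.cell_int (X : Ctx C G F W e₁ e₂ c m) {h h₂ : Fin N → ℤ} (hh : toR h = e₁ + e₂) {q κ : ℝ}
    (hq : 0 < q) (hκ : 1 < κ) (hh₂ : toR h₂ = (κ * q) • e₁ + q • e₂) {x : V N}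
    (hx : x ∈ relInt W (pairCone h h₂)) :
    ∃ A B : ℝ, x = A • e₁ + B • e₂ ∧ 0 < B ∧ B < A ∧ A < κ * B := by
  obtain ⟨A, B, rfl⟩ := X.span x hx.1
  have hW1 : (e₁ + e₂ : V N) ∈ W := W.add_mem X.W₁ X.W₂
  have hW2 : ((κ * q) • e₁ + q • e₂ : V N) ∈ W := W.add_mem (W.smul_mem _ X.W₁) (W.smul_mem _ X.W₂)
  obtain ⟨ε, hε, h1⟩ := relInt_sub hx hW1
  obtain ⟨ε', hε', h2⟩ := relInt_sub hx hW2
  have h3 : A • e₁ + B • e₂ - ε • (e₁ + e₂) = (A - ε) • e₁ + (B - ε) • e₂ := by module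
  have h4 : A • e₁ + B • e₂ - ε' • ((κ * q) • e₁ + q • e₂) = (A - ε' * (κ * q)) • e₁ + (B - ε' * q) • e₂ := by
    module
  rw [h3, X.cell hh hq hκ hh₂] at h1
  rw [h4, X.cell hh hq hκ hh₂] at h2
  have h5 : 0 < ε * (κ - 1) := mul_pos hε (by linarith)
  have h6 : 0 < ε' * q * (κ - 1) := by
    have : 0 < κ - 1 := by linarith
    positivity
  refine ⟨A, B, rfl, ?_, ?_, ?_⟩
  · have h7 : B - ε ≤ κ * (B - ε) := h1.1.trans h1.2
    have h8 : 0 ≤ (κ - 1) * (B - ε) := by linarith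
    have h9 : 0 ≤ B - ε := nonneg_of_mul_nonneg_right h8 (by linarith)
    linarith
  · linarith [h2.1]
  · linarith [h1.2]

/-- the trichotomy for the eigenvalues -/
theorem Ctx.tri {g₀ : GL (Fin N) ℤ} {μ₀ : ℝ}
    (hmin : ∀ g ∈ G, ∀ ν : ℝ, 1 < ν → act g e₁ = ν • e₁ → act g e₂ = ν⁻¹ • e₂ → μ₀ ≤ ν)
    {g : GL (Fin N) ℤ} (hg : g ∈ G) {ν : ℝ} (hν : 0 < ν) (h1 : act g e₁ = ν • e₁) (h2 : act g e₂ = ν⁻¹ • e₂) :
    ν = 1 ∨ μ₀ ≤ ν ∨ μ₀ ≤ ν⁻¹ := by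
  rcases lt_trichotomy ν 1 with h | h | h
  · right
    right
    have h3 := act_zpow hν.ne' h1 (-1)
    have h4 := act_zpow (inv_ne_zero hν.ne') h2 (-1)
    rw [zpow_neg_one, zpow_neg_one] at h3 h4
    exact hmin _ (G.inv_mem hg) _ ((one_lt_inv₀ hν).2 h) h3 h4
  · exact Or.inl h
  · right
    left
    exact hmin _ hg _ h h1 h2

/-- a diagonal element which maps an interior point of the cell to an interior point is trivial -/
theorem Ctx.diag_triv (X : Ctx C G F W e₁ e₂ c m) {μ₀ κ : ℝ} (hμ₀ : 1 < μ₀) (hκ : κ ≤ μ₀ ^ 2)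
    (hmin : ∀ g ∈ G, ∀ ν : ℝ, 1 < ν → act g e₁ = ν • e₁ → act g e₂ = ν⁻¹ • e₂ → μ₀ ≤ ν)
    {g : GL (Fin N) ℤ} (hg : g ∈ G) {ν : ℝ} (hν : 0 < ν) (h1 : act g e₁ = ν • e₁) (h2 : act g e₂ = ν⁻¹ • e₂)
    {A B A' B' : ℝ} (hB : 0 < B) (hBA : B < A) (hAB : A < κ * B) (hB' : 0 < B') (hBA' : B' < A')
    (hAB' : A' < κ * B') (he : A' • e₁ + B' • e₂ = act g (A • e₁ + B • e₂)) : ν = 1 := by
  have h3 : act g (A • e₁ + B • e₂) = (A * ν) • e₁ + (B * ν⁻¹) • e₂ := by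
    rw [act_add, act_smul, act_smul, h1, h2, smul_smul, smul_smul]
  rw [h3] at he
  obtain ⟨hA1, hB1⟩ := X.indep he
  have hA : 0 < A := hB.trans hBA
  have hνi : 0 < ν⁻¹ := by positivity
  have hνν : ν * ν⁻¹ = 1 := mul_inv_cancel₀ hν.ne'
  rcases Ctx.tri (g₀ := g) hmin hg hν h1 h2 with h | h | h
  · exact h
  · exfalso
    -- A ν < κ B ν⁻¹
    have h4 : A * ν ^ 2 < κ * B := by
      have h5 : A * ν < κ * (B * ν⁻¹) := by rw [← hA1, ← hB1]; exact hAB'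
      have h6 := mul_lt_mul_of_pos_right h5 hν
      have h7 : κ * (B * ν⁻¹) * ν = κ * B := by
        rw [mul_assoc, mul_assoc, mul_comm ν⁻¹, hνν, mul_one]
      rw [h7] at h6
      linarith
    have h8 : μ₀ ^ 2 ≤ ν ^ 2 := by
      have : 0 < μ₀ := by linarith
      nlinarith
    have h9 : κ * B ≤ ν ^ 2 * B := mul_le_mul_of_nonneg_right (hκ.trans h8) hB.le
    have h10 : B * ν ^ 2 < A * ν ^ 2 := mul_lt_mul_of_pos_right hBA (by positivity)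
    linarith
  · exfalso
    have h4 : B * ν⁻¹ ^ 2 < A := by
      have h5 : B * ν⁻¹ < A * ν := by rw [← hA1, ← hB1]; exact hBA'
      have h6 := mul_lt_mul_of_pos_right h5 hνi
      have h7 : A * ν * ν⁻¹ = A := by rw [mul_assoc, hνν, mul_one]
      rw [h7] at h6
      linarith
    have h8 : μ₀ ^ 2 ≤ ν⁻¹ ^ 2 := by
      have : 0 < μ₀ := by linarith
      nlinarith
    have h9 : κ * B ≤ ν⁻¹ ^ 2 * B := mul_le_mul_of_nonneg_right (hκ.trans h8) hB.le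
    linarith

/-- shift by powers of the diagonal element -/
theorem Ctx.shift {g₀ : GL (Fin N) ℤ} {μ₀ : ℝ} (hμ₀ : 1 < μ₀)
    (h1 : act g₀ e₁ = μ₀ • e₁) (h2 : act g₀ e₂ = μ₀⁻¹ • e₂) {A B s : ℝ} (hA : 0 < A) (hB : 0 < B) (hs : 0 < s) :
    ∃ (j : ℤ) (A' B' : ℝ), 0 < A' ∧ 0 < B' ∧ B' ≤ s * A' ∧ s * A' ≤ μ₀ ^ 2 * B' ∧
      A • e₁ + B • e₂ = act (g₀ ^ j) (A' • e₁ + B' • e₂) := by
  have hμ0 : 0 < μ₀ := by linarith
  obtain ⟨j, hj1, hj2⟩ := exists_mem_Ico_zpow (x := s * A / B) (y := μ₀ ^ 2) (by positivity)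
    (one_lt_pow₀ hμ₀ two_ne_zero)
  have hz : 0 < μ₀ ^ j := by positivity
  have e1 : (μ₀ ^ 2) ^ j = μ₀ ^ j * μ₀ ^ j := by
    rw [← zpow_natCast, ← zpow_mul, ← zpow_add₀ hμ0.ne']
    congr 1
    push_cast
    ring
  have e2 : (μ₀ ^ 2) ^ (j + 1) = μ₀ ^ j * μ₀ ^ j * μ₀ ^ 2 := by
    rw [zpow_add₀ (by positivity), e1, zpow_one]
  rw [e1, le_div_iff₀ hB] at hj1
  rw [e2, div_lt_iff₀ hB] at hj2
  refine ⟨j, A * (μ₀ ^ j)⁻¹, B * μ₀ ^ j, by positivity, by positivity, ?_, ?_, ?_⟩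
  · rw [← mul_assoc, ← div_eq_mul_inv, le_div_iff₀ hz]
    linarith
  · rw [← mul_assoc, ← div_eq_mul_inv, div_le_iff₀ hz]
    linarith
  · rw [act_comb hμ0.ne' h1 h2, mul_assoc, inv_mul_cancel₀ hz.ne', mul_one, mul_assoc,
      mul_inv_cancel₀ hz.ne', mul_one]

/-- the union of the translates lies in the cone -/
theorem Ctx.union_sub (X : Ctx C G F W e₁ e₂ c m) {h h₂ : Fin N → ℤ} (hh : toR h ∈ C) (hh₂ : toR h₂ ∈ C)
    (hhW : toR h ∈ W) (hh₂W : toR h₂ ∈ W) :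
    (⋃ g ∈ stab G W, act g '' pairCone h h₂) ⊆ (C ∩ W) ∪ {0} := by
  intro y hy
  rw [Set.mem_iUnion₂] at hy
  obtain ⟨g, hg, x, ⟨α, β, hα, hβ, rfl⟩, rfl⟩ := hy
  rcases hα.eq_or_lt with hα0 | hα0
  · rcases hβ.eq_or_lt with hβ0 | hβ0
    · right
      rw [← hα0, ← hβ0, zero_smul, zero_smul, add_zero, Set.mem_singleton_iff]
      have := act_smul g 0 (0 : V N)
      rwa [zero_smul, zero_smul] at this
    · left
      rw [← hα0, zero_smul, zero_add]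
      exact ⟨X.hG g hg.1 _ (X.hC.smul _ hβ0 _ hh₂), (hg.2 _).2 (W.smul_mem _ hh₂W)⟩
  · left
    refine ⟨X.hG g hg.1 _ ?_, (hg.2 _).2 (W.add_mem (W.smul_mem _ hhW) (W.smul_mem _ hh₂W))⟩
    rw [add_comm]
    exact X.hC.add_mem _ (X.hC.closure_smul _ hβ _ (subset_closure hh₂)) _ (X.hC.smul _ hα0 _ hh)

theorem act_zero {g : GL (Fin N) ℤ} : act g (0 : V N) = 0 := by
  have := act_smul g 0 (0 : V N)
  rwa [zero_smul, zero_smul] at this

/-- an element which acts trivially on the two rays acts trivially on the plane -/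
theorem Ctx.triv (X : Ctx C G F W e₁ e₂ c m) {g : GL (Fin N) ℤ} (h1 : act g e₁ = e₁) (h2 : act g e₂ = e₂) :
    ¬ ∃ x ∈ W, act g x ≠ x := by
  rintro ⟨x, hx, hne⟩
  obtain ⟨a, b, rfl⟩ := X.span x hx
  apply hne
  rw [act_add, act_smul, act_smul, h1, h2]

theorem Ctx.fund_noswap (X : Ctx C G F W e₁ e₂ c m) {h : Fin N → ℤ} (hh : toR h = e₁ + e₂)
    {g₀ : GL (Fin N) ℤ} (hg₀ : g₀ ∈ G) {μ₀ : ℝ} (hμ₀ : 1 < μ₀)
    (h1 : act g₀ e₁ = μ₀ • e₁) (h2 : act g₀ e₂ = μ₀⁻¹ • e₂)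
    (hmin : ∀ g ∈ G, ∀ ν : ℝ, 1 < ν → act g e₁ = ν • e₁ → act g e₂ = ν⁻¹ • e₂ → μ₀ ≤ ν)
    (hns : ∀ g ∈ stab G W, ∃ ν : ℝ, 0 < ν ∧ act g e₁ = ν • e₁ ∧ act g e₂ = ν⁻¹ • e₂) :
    ∃ P : Set (V N), RatPoly P ∧ (⋃ g ∈ stab G W, act g '' P) = (C ∩ W) ∪ {0} ∧
      ∀ g ∈ stab G W, (∃ x ∈ W, act g x ≠ x) → Disjoint (relInt W P) (act g '' relInt W P) := by
  have hμ0 : 0 < μ₀ := by linarith
  have hg₀s : g₀ ∈ stab G W := X.diag_stab hg₀ hμ0.ne' h1 h2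
  have hh₂ : toR (actZ g₀ h) = (μ₀ ^ 2 * μ₀⁻¹) • e₁ + μ₀⁻¹ • e₂ := by
    rw [toR_actZ, hh, act_add, h1, h2]
    congr 2
    field_simp
  have hq : 0 < μ₀⁻¹ := by positivity
  have hκ : 1 < μ₀ ^ 2 := one_lt_pow₀ hμ₀ two_ne_zero
  have hne : h ≠ actZ g₀ h := by
    intro he
    rw [← he, hh] at hh₂
    have h3' : (1 : ℝ) • e₁ + (1 : ℝ) • e₂ = (μ₀ ^ 2 * μ₀⁻¹) • e₁ + μ₀⁻¹ • e₂ := by
      rw [one_smul, one_smul]
      exact hh₂
    have h3 := (X.indep h3').2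
    have h4 : μ₀⁻¹ < 1 := inv_lt_one_of_one_lt₀ hμ₀
    linarith
  have hhC : toR h ∈ C := by rw [hh]; exact X.sum
  have hhW : toR h ∈ W := by rw [hh]; exact W.add_mem X.W₁ X.W₂
  have hh₂C : toR (actZ g₀ h) ∈ C := by rw [toR_actZ]; exact X.hG _ hg₀ _ hhC
  have hh₂W : toR (actZ g₀ h) ∈ W := by rw [toR_actZ]; exact (hg₀s.2 _).2 hhW
  refine ⟨pairCone h (actZ g₀ h), ratPoly_pair _ _ hne, ?_, ?_⟩
  · apply Set.Subset.antisymm (X.union_sub hhC hh₂C hhW hh₂W)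
    rintro x (⟨hxC, hxW⟩ | hx)
    · obtain ⟨A, B, rfl⟩ := X.span x hxW
      obtain ⟨hA, hB⟩ := (X.mem_iff A B).1 hxC
      obtain ⟨j, A', B', hA', hB', h3, h4, h5⟩ := Ctx.shift hμ₀ h1 h2 hA hB one_pos
      rw [h5]
      refine Set.mem_biUnion (stab_zpow hg₀s j) ⟨_, ?_, rfl⟩
      rw [X.cell hh hq hκ hh₂]
      rw [one_mul] at h3 h4
      exact ⟨h3, h4⟩
    · rw [Set.mem_singleton_iff] at hx
      rw [hx]
      exact Set.mem_biUnion stab_one ⟨0, ⟨0, 0, le_rfl, le_rfl, by simp⟩, act_zero⟩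
  · intro g hg hnt
    rw [Set.disjoint_left]
    rintro y hy ⟨x, hx, hxy⟩
    obtain ⟨ν, hν, h3, h4⟩ := hns g hg
    obtain ⟨A', B', rfl, hB', hBA', hAB'⟩ := X.cell_int hh hq hκ hh₂ hy
    obtain ⟨A, B, rfl, hB, hBA, hAB⟩ := X.cell_int hh hq hκ hh₂ hx
    have hν1 := X.diag_triv hμ₀ le_rfl hmin hg.1 hν h3 h4 hB hBA hAB hB' hBA' hAB' hxy.symm
    rw [hν1] at h3 h4
    rw [inv_one, one_smul] at h4
    rw [one_smul] at h3
    exact X.triv h3 h4 hnt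

theorem Ctx.fund_swap (X : Ctx C G F W e₁ e₂ c m) {h : Fin N → ℤ} (hh : toR h = e₁ + e₂)
    {g₀ : GL (Fin N) ℤ} (hg₀ : g₀ ∈ G) {μ₀ : ℝ} (hμ₀ : 1 < μ₀)
    (h1 : act g₀ e₁ = μ₀ • e₁) (h2 : act g₀ e₂ = μ₀⁻¹ • e₂)
    (hmin : ∀ g ∈ G, ∀ ν : ℝ, 1 < ν → act g e₁ = ν • e₁ → act g e₂ = ν⁻¹ • e₂ → μ₀ ≤ ν)
    {σ : GL (Fin N) ℤ} (hσ : σ ∈ stab G W) (hσ1 : act σ e₁ = e₂) (hσ2 : act σ e₂ = e₁) :
    ∃ P : Set (V N), RatPoly P ∧ (⋃ g ∈ stab G W, act g '' P) = (C ∩ W) ∪ {0} ∧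
      ∀ g ∈ stab G W, (∃ x ∈ W, act g x ≠ x) → Disjoint (relInt W P) (act g '' relInt W P) := by
  have hμ0 : 0 < μ₀ := by linarith
  have hg₀s : g₀ ∈ stab G W := X.diag_stab hg₀ hμ0.ne' h1 h2
  have hh₂ : toR (h + actZ g₀ h) = (μ₀ * (1 + μ₀⁻¹)) • e₁ + (1 + μ₀⁻¹) • e₂ := by
    rw [toR_add, toR_actZ, hh, act_add, h1, h2]
    have h3 : μ₀ * (1 + μ₀⁻¹) = 1 + μ₀ := by
      field_simp
      ring
    rw [h3]
    module
  have hq : 0 < 1 + μ₀⁻¹ := by positivity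
  have hne : h ≠ h + actZ g₀ h := by
    intro he
    rw [← he, hh] at hh₂
    have h3' : (1 : ℝ) • e₁ + (1 : ℝ) • e₂ = (μ₀ * (1 + μ₀⁻¹)) • e₁ + (1 + μ₀⁻¹) • e₂ := by
      rw [one_smul, one_smul]
      exact hh₂
    have h3 := (X.indep h3').2
    have h4 : 0 < μ₀⁻¹ := by positivity
    linarith
  have hhC : toR h ∈ C := by rw [hh]; exact X.sum
  have hhW : toR h ∈ W := by rw [hh]; exact W.add_mem X.W₁ X.W₂
  have hh₂C : toR (h + actZ g₀ h) ∈ C := by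
    rw [toR_add, toR_actZ]
    exact X.hC.add _ hhC _ (X.hG _ hg₀ _ hhC)
  have hh₂W : toR (h + actZ g₀ h) ∈ W := by
    rw [toR_add, toR_actZ]
    exact W.add_mem hhW ((hg₀s.2 _).2 hhW)
  have hκ2 : μ₀ ≤ μ₀ ^ 2 := by nlinarith
  refine ⟨pairCone h (h + actZ g₀ h), ratPoly_pair _ _ hne, ?_, ?_⟩
  · apply Set.Subset.antisymm (X.union_sub hhC hh₂C hhW hh₂W)
    rintro x (⟨hxC, hxW⟩ | hx)
    · obtain ⟨A, B, rfl⟩ := X.span x hxW
      obtain ⟨hA, hB⟩ := (X.mem_iff A B).1 hxC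
      obtain ⟨j, A', B', hA', hB', h3, h4, h5⟩ := Ctx.shift hμ₀ h1 h2 hA hB hμ0
      have h6 : A' ≤ μ₀ * B' := by
        have h7 : μ₀ * A' ≤ μ₀ * (μ₀ * B') := by linarith
        exact le_of_mul_le_mul_left h7 hμ0
      rw [h5]
      by_cases hAB : B' ≤ A'
      · refine Set.mem_biUnion (stab_zpow hg₀s j) ⟨_, ?_, rfl⟩
        rw [X.cell hh hq hμ₀ hh₂]
        exact ⟨hAB, h6⟩
      · push Not at hAB
        refine Set.mem_biUnion (stab_mul (stab_zpow hg₀s j) hσ) ⟨B' • e₁ + A' • e₂, ?_, ?_⟩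
        · rw [X.cell hh hq hμ₀ hh₂]
          exact ⟨hAB.le, h3⟩
        · rw [act_mul]
          congr 1
          rw [act_add, act_smul, act_smul, hσ1, hσ2, add_comm]
    · rw [Set.mem_singleton_iff] at hx
      rw [hx]
      exact Set.mem_biUnion stab_one ⟨0, ⟨0, 0, le_rfl, le_rfl, by simp⟩, act_zero⟩
  · intro g hg hnt
    rw [Set.disjoint_left]
    rintro y hy ⟨x, hx, hxy⟩
    obtain ⟨A', B', rfl, hB', hBA', hAB'⟩ := X.cell_int hh hq hμ₀ hh₂ hy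
    obtain ⟨A, B, rfl, hB, hBA, hAB⟩ := X.cell_int hh hq hμ₀ hh₂ hx
    rcases X.classify hg with ⟨ν, hν, h3, h4⟩ | ⟨ν, hν, h3, h4⟩
    · have hν1 := X.diag_triv hμ₀ hκ2 hmin hg.1 hν h3 h4 hB hBA hAB hB' hBA' hAB' hxy.symm
      rw [hν1] at h3 h4
      rw [inv_one, one_smul] at h4
      rw [one_smul] at h3
      exact X.triv h3 h4 hnt
    · have h5 : act g (A • e₁ + B • e₂) = (B * ν⁻¹) • e₁ + (A * ν) • e₂ := by
        rw [act_add, act_smul, act_smul, h3, h4, smul_smul, smul_smul, add_comm]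
      rw [h5] at hxy
      obtain ⟨hA1, hB1⟩ := X.indep hxy
      have hd1 : act (g * σ) e₁ = ν⁻¹ • e₁ := by rw [act_mul, hσ1, h4]
      have hd2 : act (g * σ) e₂ = (ν⁻¹)⁻¹ • e₂ := by rw [act_mul, hσ2, h3, inv_inv]
      have hA : 0 < A := hB.trans hBA
      have hνi : 0 < ν⁻¹ := by positivity
      have hνν : ν * ν⁻¹ = 1 := mul_inv_cancel₀ hν.ne'
      have k1 : A * ν < B * ν⁻¹ := by rw [hA1, hB1]; exact hBA'
      have k2 : B * ν⁻¹ < μ₀ * (A * ν) := by rw [hA1, hB1]; exact hAB'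
      have k3 : A * ν ^ 2 < B := by
        have h6 := mul_lt_mul_of_pos_right k1 hν
        have h7 : B * ν⁻¹ * ν = B := by rw [mul_assoc, mul_comm ν⁻¹, hνν, mul_one]
        rw [h7] at h6
        linarith
      have k4 : B * ν⁻¹ ^ 2 < μ₀ * A := by
        have h6 := mul_lt_mul_of_pos_right k2 hνi
        have h7 : μ₀ * (A * ν) * ν⁻¹ = μ₀ * A := by rw [mul_assoc, mul_assoc, hνν, mul_one]
        rw [h7] at h6
        linarith
      rcases Ctx.tri (g₀ := g) hmin (G.mul_mem hg.1 hσ.1) hνi hd1 hd2 with h | h | h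
      · have h8 : ν = 1 := by rw [← inv_inv ν, h, inv_one]
        rw [h8] at k3
        linarith
      · have h8 : μ₀ ^ 2 ≤ ν⁻¹ ^ 2 := by nlinarith
        have h9 : B * μ₀ ^ 2 ≤ B * ν⁻¹ ^ 2 := mul_le_mul_of_nonneg_left h8 hB.le
        have h10 : μ₀ * A < μ₀ * (μ₀ * B) := mul_lt_mul_of_pos_left hAB hμ0
        linarith
      · rw [inv_inv] at h
        have h8 : 1 ≤ ν ^ 2 := by nlinarith
        have h9 : A * 1 ≤ A * ν ^ 2 := mul_le_mul_of_nonneg_left h8 hA.le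
        linarith

theorem Ctx.fund (X : Ctx C G F W e₁ e₂ c m) {h : Fin N → ℤ} (hh : toR h = e₁ + e₂)
    {g : GL (Fin N) ℤ} (hg : g ∈ G) {μ : ℝ} (hμ : 1 < μ)
    (h1 : act g e₁ = μ • e₁) (h2 : act g e₂ = μ⁻¹ • e₂) :
    ∃ P : Set (V N), RatPoly P ∧ (⋃ g ∈ stab G W, act g '' P) = (C ∩ W) ∪ {0} ∧
      ∀ g ∈ stab G W, (∃ x ∈ W, act g x ≠ x) → Disjoint (relInt W P) (act g '' relInt W P) := by
  obtain ⟨g₀, hg₀, μ₀, hμ₀, h3, h4, hmin⟩ := X.minimal h hh hg hμ h1 h2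
  by_cases hns : ∀ g ∈ stab G W, ∃ ν : ℝ, 0 < ν ∧ act g e₁ = ν • e₁ ∧ act g e₂ = ν⁻¹ • e₂
  · exact X.fund_noswap hh hg₀ hμ₀ h3 h4 hmin hns
  · push Not at hns
    obtain ⟨σ, hσ, hσn⟩ := hns
    rcases X.classify hσ with ⟨ν, hν, h5, h6⟩ | ⟨ν, hν, h5, h6⟩
    · exact absurd h6 (hσn ν hν h5)
    · have hνi : 0 < ν⁻¹ := by positivity
      have ha : 0 < 1 + ν⁻¹ := by positivity
      have hb : 0 < 1 + ν := by positivity
      have hsum : toR (h + actZ σ h) = (1 + ν⁻¹) • e₁ + (1 + ν) • e₂ := by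
        rw [toR_add, toR_actZ, hh, act_add, h5, h6]
        module
      have Y : Ctx C G F W ((1 + ν⁻¹) • e₁) ((1 + ν) • e₂) (c * ((1 + ν⁻¹) * (1 + ν)) ^ m) m :=
        { hC := X.hC
          hG := X.hG
          inv := X.inv
          pos := X.pos
          sum := (X.mem_iff _ _).2 ⟨ha, hb⟩
          cl₁ := X.hC.closure_smul _ ha.le _ X.cl₁
          cl₂ := X.hC.closure_smul _ hb.le _ X.cl₂
          m0 := X.m0
          form := by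
            intro a b
            rw [smul_smul, smul_smul, X.form, mul_assoc c, ← mul_pow]
            congr 2
            ring
          W₁ := W.smul_mem _ X.W₁
          W₂ := W.smul_mem _ X.W₂
          span := by
            intro x hx
            obtain ⟨a, b, rfl⟩ := X.span x hx
            refine ⟨a / (1 + ν⁻¹), b / (1 + ν), ?_⟩
            rw [smul_smul, smul_smul, div_mul_cancel₀ _ ha.ne', div_mul_cancel₀ _ hb.ne'] }
      have hcomm : ∀ (t s : ℝ) (e : V N), t • s • e = s • t • e := fun t s e => smul_comm t s e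
      refine Y.fund_swap hsum hg₀ hμ₀ ?_ ?_ ?_ hσ ?_ ?_
      · rw [act_smul, h3, hcomm]
      · rw [act_smul, h4, hcomm]
      · intro g' hg' ν' hν' h7 h8
        refine hmin g' hg' ν' hν' ?_ ?_
        · rw [act_smul, hcomm] at h7
          exact smul_right_injective _ ha.ne' h7
        · rw [act_smul, hcomm] at h8
          exact smul_right_injective _ hb.ne' h8
      · rw [act_smul, h5, smul_smul]
        congr 1
        field_simp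
        ring
      · rw [act_smul, h6, smul_smul]
        congr 1
        field_simp
        ring

end Pool.Agent.H57.IR
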