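import Mathlib

/-!
# Rational polynomials with an irrational root of multiplicity at least half the degree
-/

set_option autoImplicit false

namespace Pool.Agent.H57.IR

open Polynomial

theorem minpoly_pow_dvd {θ : ℝ} (hθ : IsIntegral ℚ θ) : ∀ (e : ℕ) (P : ℚ[X]),
    (X - C θ) ^ e ∣ P.map (algebraMap ℚ ℝ) → (minpoly ℚ θ) ^ e ∣ P := by
  intro e
  induction e with
  | zero => intro P _; simp
  | succ e ih =>
    intro P hP
    have hroot : aeval θ P = 0 := by
      have h1 : (X - C θ) ∣ P.map (algebraMap ℚ ℝ) := dvd_trans (dvd_pow_self _ (Nat.succ_ne_zero e)) hP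
      rw [dvd_iff_isRoot, IsRoot, eval_map_algebraMap] at h1
      exact h1
    obtain ⟨P1, hP1⟩ := minpoly.dvd ℚ θ hroot
    have hsep : ((minpoly ℚ θ).map (algebraMap ℚ ℝ)).Separable := (minpoly.irreducible hθ).separable.map
    have hg : (X - C θ) ∣ (minpoly ℚ θ).map (algebraMap ℚ ℝ) := by
      rw [dvd_iff_isRoot, IsRoot, eval_map_algebraMap]
      exact minpoly.aeval ℚ θ
    obtain ⟨g1, hg1⟩ := hg
    have hcop : IsCoprime (X - C θ) g1 := by
      rw [hg1] at hsep
      exact hsep.isCoprime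
    rw [hP1, Polynomial.map_mul, hg1, pow_succ', mul_assoc] at hP
    have h2 : (X - C θ) ^ e ∣ g1 * P1.map (algebraMap ℚ ℝ) :=
      (mul_dvd_mul_iff_left (X_sub_C_ne_zero θ)).1 hP
    have h3 := (hcop.pow_left (m := e)).dvd_of_dvd_mul_left h2
    obtain ⟨R, hR⟩ := ih P1 h3
    exact ⟨R, by rw [hP1, hR, pow_succ']; ring⟩

theorem quad_power {P : ℚ[X]} {θ : ℝ} {e d : ℕ} (hθ : Irrational θ) (hd : 0 < d) (h2 : d ≤ 2 * e)
    (hdeg : P.natDegree = d) (hdiv : (X - C θ) ^ e ∣ P.map (algebraMap ℚ ℝ)) :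
    d = 2 * e ∧ ∃ s t : ℚ, θ ^ 2 - s * θ + t = 0 ∧
      P = C P.leadingCoeff * (X ^ 2 - C s * X + C t) ^ e := by
  have he : 0 < e := by omega
  have hP0 : P ≠ 0 := by
    rintro rfl
    rw [natDegree_zero] at hdeg
    omega
  have hroot : aeval θ P = 0 := by
    have h1 : (X - C θ) ∣ P.map (algebraMap ℚ ℝ) := dvd_trans (dvd_pow_self _ he.ne') hdiv
    rw [dvd_iff_isRoot, IsRoot, eval_map_algebraMap] at h1
    exact h1
  have hint : IsIntegral ℚ θ := (isAlgebraic_iff_isIntegral).1 ⟨P, hP0, hroot⟩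
  have hmon := minpoly.monic hint
  have hdv := minpoly_pow_dvd hint e P hdiv
  have hdegg : 2 ≤ (minpoly ℚ θ).natDegree := by
    rw [minpoly.two_le_natDegree_iff hint]
    rintro ⟨q, hq⟩
    exact hθ ⟨q, by rw [← hq]; rfl⟩
  have hle : e * (minpoly ℚ θ).natDegree ≤ d := by
    have := natDegree_le_of_dvd hdv hP0
    rwa [natDegree_pow, hdeg] at this
  have hd2 : (minpoly ℚ θ).natDegree = 2 := by
    by_contra hne
    have h3 : 3 ≤ (minpoly ℚ θ).natDegree := by omega
    have : e * 3 ≤ e * (minpoly ℚ θ).natDegree := Nat.mul_le_mul_left e h3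
    omega
  rw [hd2] at hle
  have hde : d = 2 * e := by omega
  refine ⟨hde, -(minpoly ℚ θ).coeff 1, (minpoly ℚ θ).coeff 0, ?_, ?_⟩
  · have h0 : aeval θ (minpoly ℚ θ) = 0 := minpoly.aeval ℚ θ
    rw [aeval_eq_sum_range, hd2, Finset.sum_range_succ, Finset.sum_range_succ, Finset.sum_range_succ,
      Finset.sum_range_zero] at h0
    have hc : (minpoly ℚ θ).coeff 2 = 1 := by
      have := hmon.coeff_natDegree
      rwa [hd2] at this
    rw [hc] at h0
    simp only [Algebra.smul_def] at h0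
    simp only [eq_ratCast, pow_zero, mul_one, pow_one, Rat.cast_one, one_mul, zero_add] at h0
    push_cast
    linarith
  · have hg : minpoly ℚ θ = X ^ 2 - C (-(minpoly ℚ θ).coeff 1) * X + C ((minpoly ℚ θ).coeff 0) := by
      have hc : (minpoly ℚ θ).coeff 2 = 1 := by
        have := hmon.coeff_natDegree
        rwa [hd2] at this
      conv_lhs => rw [(minpoly ℚ θ).as_sum_range_C_mul_X_pow, hd2]
      rw [Finset.sum_range_succ, Finset.sum_range_succ, Finset.sum_range_succ,
        Finset.sum_range_zero, hc]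
      simp only [C_neg, pow_zero, mul_one, pow_one, C_1, one_mul, zero_add]
      ring
    rw [← hg]
    obtain ⟨R, hR⟩ := hdv
    have hR0 : R ≠ 0 := by
      rintro rfl
      rw [mul_zero] at hR
      exact hP0 hR
    have hmp : ((minpoly ℚ θ) ^ e).Monic := hmon.pow e
    have hdR : R.natDegree = 0 := by
      have := congrArg natDegree hR
      rw [hmp.natDegree_mul' hR0, natDegree_pow, hd2, hdeg] at this
      omega
    obtain ⟨c, hc⟩ := natDegree_eq_zero.1 hdR
    rw [← hc] at hR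
    have hlc : P.leadingCoeff = c := by
      rw [hR, leadingCoeff_mul, hmp.leadingCoeff, one_mul, leadingCoeff_C]
    rw [hlc, hR, mul_comm]

end Pool.Agent.H57.IR
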