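import Pool.Agent.H57.IR.Cone

/-!
# A rational polyhedral fundamental domain for the stabiliser of the plane
-/

set_option autoImplicit false

namespace Pool.Agent.H57.IR

open Pool.Agent.H57.KM

/-- the elements of the group `G` which map the subspace `W` onto itself -/
def stab {N : ℕ} (G : Subgroup (GL (Fin N) ℤ)) (W : Submodule ℝ (V N)) : Set (GL (Fin N) ℤ) :=
  {g | g ∈ G ∧ ∀ x, act g x ∈ W ↔ x ∈ W}

/-- the interior of the set `P` in the subspace `W` -/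
def relInt {N : ℕ} (W : Submodule ℝ (V N)) (P : Set (V N)) : Set (V N) :=
  {x | x ∈ W ∧ ∃ U : Set (V N), IsOpen U ∧ x ∈ U ∧ U ∩ W ⊆ P}

/-- the situation: a plane `W` with the two boundary rays of the cone -/
structure Ctx {N : ℕ} (C : Set (V N)) (G : Subgroup (GL (Fin N) ℤ)) (F : V N → ℝ) (W : Submodule ℝ (V N))
    (e₁ e₂ : V N) (c : ℝ) (m : ℕ) : Prop where
  hC : IsAmp C
  hG : ∀ g ∈ G, ∀ x ∈ C, act g x ∈ C
  inv : ∀ g ∈ G, ∀ x, F (act g x) = F x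
  pos : ∀ x ∈ C, 0 < F x
  sum : e₁ + e₂ ∈ C
  cl₁ : e₁ ∈ closure C
  cl₂ : e₂ ∈ closure C
  m0 : 0 < m
  form : ∀ a b : ℝ, F (a • e₁ + b • e₂) = c * (a * b) ^ m
  W₁ : e₁ ∈ W
  W₂ : e₂ ∈ W
  span : ∀ x ∈ W, ∃ a b : ℝ, x = a • e₁ + b • e₂

variable {N : ℕ} {C : Set (V N)} {G : Subgroup (GL (Fin N) ℤ)} {F : V N → ℝ} {W : Submodule ℝ (V N)}
  {e₁ e₂ : V N} {c : ℝ} {m : ℕ}

theorem stab_inv {g : GL (Fin N) ℤ} (hg : g ∈ stab G W) : g⁻¹ ∈ stab G W := by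
  refine ⟨G.inv_mem hg.1, fun x => ?_⟩
  rw [← hg.2 (act g⁻¹ x), ← act_mul, mul_inv_cancel, act_one]

theorem stab_mul {g h : GL (Fin N) ℤ} (hg : g ∈ stab G W) (hh : h ∈ stab G W) : g * h ∈ stab G W := by
  refine ⟨G.mul_mem hg.1 hh.1, fun x => ?_⟩
  rw [act_mul, hg.2, hh.2]

theorem stab_one : (1 : GL (Fin N) ℤ) ∈ stab G W := by
  refine ⟨G.one_mem, fun x => ?_⟩
  rw [act_one]

theorem stab_zpow {g : GL (Fin N) ℤ} (hg : g ∈ stab G W) (j : ℤ) : g ^ j ∈ stab G W := by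
  have hnat : ∀ {g : GL (Fin N) ℤ}, g ∈ stab G W → ∀ k : ℕ, g ^ k ∈ stab G W := by
    intro g hg k
    induction k with
    | zero => rw [pow_zero]; exact stab_one
    | succ k ih => rw [pow_succ]; exact stab_mul ih hg
  cases j with
  | ofNat k => simpa using hnat hg k
  | negSucc k =>
    rw [zpow_negSucc, ← inv_pow]
    exact hnat (stab_inv hg) (k + 1)

theorem Ctx.indep (X : Ctx C G F W e₁ e₂ c m) {a b a' b' : ℝ}
    (h : a • e₁ + b • e₂ = a' • e₁ + b' • e₂) : a = a' ∧ b = b' :=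
  indep_pair X.hC F X.pos X.sum X.m0 X.form h

theorem Ctx.mem_iff (X : Ctx C G F W e₁ e₂ c m) (a b : ℝ) : a • e₁ + b • e₂ ∈ C ↔ 0 < a ∧ 0 < b :=
  cone_iff X.hC F X.pos X.sum X.m0 X.form X.cl₁ X.cl₂ a b

theorem Ctx.cpos (X : Ctx C G F W e₁ e₂ c m) : 0 < c := by
  have h1 := X.pos _ X.sum
  have h2 := X.form 1 1
  rw [one_smul, one_smul, mul_one, one_pow, mul_one] at h2
  rwa [h2] at h1

/-- a diagonal element lies in the stabiliser -/
theorem Ctx.diag_stab (X : Ctx C G F W e₁ e₂ c m) {g : GL (Fin N) ℤ} (hg : g ∈ G) {ν : ℝ} (hν : ν ≠ 0)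
    (h1 : act g e₁ = ν • e₁) (h2 : act g e₂ = ν⁻¹ • e₂) : g ∈ stab G W := by
  refine ⟨hg, fun x => ⟨fun hx => ?_, fun hx => ?_⟩⟩
  · obtain ⟨a, b, hab⟩ := X.span _ hx
    have h3 := act_comb hν h1 h2 a b (-1)
    rw [← hab] at h3
    rw [zpow_neg_one, ← act_mul, inv_mul_cancel, act_one] at h3
    rw [h3]
    exact W.add_mem (W.smul_mem _ X.W₁) (W.smul_mem _ X.W₂)
  · obtain ⟨a, b, hab⟩ := X.span _ hx
    have h3 := act_comb hν h1 h2 a b 1
    rw [← hab, zpow_one] at h3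
    rw [h3]
    exact W.add_mem (W.smul_mem _ X.W₁) (W.smul_mem _ X.W₂)

/-- the elements of the stabiliser fix or exchange the two rays -/
theorem Ctx.classify (X : Ctx C G F W e₁ e₂ c m) {g : GL (Fin N) ℤ} (hg : g ∈ stab G W) :
    (∃ ν : ℝ, 0 < ν ∧ act g e₁ = ν • e₁ ∧ act g e₂ = ν⁻¹ • e₂) ∨
      (∃ ν : ℝ, 0 < ν ∧ act g e₁ = ν • e₂ ∧ act g e₂ = ν⁻¹ • e₁) := by
  have hc := X.cpos
  obtain ⟨a, b, hab⟩ := X.span _ ((hg.2 e₁).2 X.W₁)
  obtain ⟨a', b', hab'⟩ := X.span _ ((hg.2 e₂).2 X.W₂)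
  have hclos : ∀ x ∈ closure C, act g x ∈ closure C := act_closure (X.hG g hg.1)
  have hnn : 0 ≤ a ∧ 0 ≤ b := by
    rw [← closure_iff X.hC F X.pos X.sum X.m0 X.form X.cl₁ X.cl₂, ← hab]
    exact hclos _ X.cl₁
  have hnn' : 0 ≤ a' ∧ 0 ≤ b' := by
    rw [← closure_iff X.hC F X.pos X.sum X.m0 X.form X.cl₁ X.cl₂, ← hab']
    exact hclos _ X.cl₂
  have key : ∀ x y : ℝ, ((x * a + y * a') * (x * b + y * b')) ^ m = (x * y) ^ m := by
    intro x y
    have h1 := X.inv g hg.1 (x • e₁ + y • e₂)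
    have h2 : act g (x • e₁ + y • e₂) = (x * a + y * a') • e₁ + (x * b + y * b') • e₂ := by
      rw [act_add, act_smul, act_smul, hab, hab']
      module
    rw [h2, X.form, X.form] at h1
    exact mul_left_cancel₀ hc.ne' h1
  have k10 := key 1 0
  have k01 := key 0 1
  have k11 := key 1 1
  simp only [one_mul, zero_mul, add_zero, zero_add, mul_zero, mul_one, zero_pow X.m0.ne', one_pow] at k10 k01 k11
  have z1 : a * b = 0 := (pow_eq_zero_iff X.m0.ne').1 k10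
  have z2 : a' * b' = 0 := (pow_eq_zero_iff X.m0.ne').1 k01
  have z3 : (a + a') * (b + b') = 1 := by
    have h1 : 0 ≤ (a + a') * (b + b') :=
      mul_nonneg (add_nonneg hnn.1 hnn'.1) (add_nonneg hnn.2 hnn'.2)
    exact (pow_eq_one_iff_of_nonneg h1 X.m0.ne').1 k11
  rcases mul_eq_zero.1 z1 with ha | hb
  · right
    have hb0 : b ≠ 0 := by
      rintro rfl
      rw [ha, zero_smul, zero_smul, add_zero] at hab
      have h1 := congrArg (act g⁻¹) hab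
      rw [← act_mul, inv_mul_cancel, act_one] at h1
      have h2 : act g⁻¹ (0 : V N) = 0 := by
        have := act_smul g⁻¹ 0 (0 : V N)
        rwa [zero_smul, zero_smul] at this
      rw [h2] at h1
      have h3 := (X.indep (a := 1) (b := 0) (a' := 0) (b' := 0) (by rw [h1]; simp)).1
      exact one_ne_zero h3
    rw [ha, zero_add] at z3
    have hb' : b' = 0 := by
      rcases mul_eq_zero.1 z2 with h | h
      · rw [h, zero_mul] at z3
        exact absurd z3 zero_ne_one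
      · exact h
    rw [hb', add_zero] at z3
    refine ⟨b, lt_of_le_of_ne hnn.2 hb0.symm, ?_, ?_⟩
    · rw [hab, ha, zero_smul, zero_add]
    · rw [hab', hb', zero_smul, add_zero]
      congr 1
      exact eq_inv_of_mul_eq_one_left z3
  · left
    have ha0 : a ≠ 0 := by
      rintro rfl
      rw [hb, zero_smul, zero_smul, add_zero] at hab
      have h1 := congrArg (act g⁻¹) hab
      rw [← act_mul, inv_mul_cancel, act_one] at h1
      have h2 : act g⁻¹ (0 : V N) = 0 := by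
        have := act_smul g⁻¹ 0 (0 : V N)
        rwa [zero_smul, zero_smul] at this
      rw [h2] at h1
      have h3 := (X.indep (a := 1) (b := 0) (a' := 0) (b' := 0) (by rw [h1]; simp)).1
      exact one_ne_zero h3
    rw [hb, zero_add] at z3
    have ha' : a' = 0 := by
      rcases mul_eq_zero.1 z2 with h | h
      · exact h
      · rw [h, mul_zero] at z3
        exact absurd z3 zero_ne_one
    rw [ha', add_zero] at z3
    refine ⟨a, lt_of_le_of_ne hnn.1 ha0.symm, ?_, ?_⟩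
    · rw [hab, hb, zero_smul, add_zero]
    · rw [hab', ha', zero_smul, zero_add]
      congr 1
      exact eq_inv_of_mul_eq_one_right z3

/-- the smallest eigenvalue -/
theorem Ctx.minimal (X : Ctx C G F W e₁ e₂ c m) (h : Fin N → ℤ) (hh : toR h = e₁ + e₂)
    {g : GL (Fin N) ℤ} (hg : g ∈ G) {μ : ℝ} (hμ : 1 < μ) (h1 : act g e₁ = μ • e₁) (h2 : act g e₂ = μ⁻¹ • e₂) :
    ∃ g₀ ∈ G, ∃ μ₀ : ℝ, 1 < μ₀ ∧ act g₀ e₁ = μ₀ • e₁ ∧ act g₀ e₂ = μ₀⁻¹ • e₂ ∧
      ∀ g ∈ G, ∀ ν : ℝ, 1 < ν → act g e₁ = ν • e₁ → act g e₂ = ν⁻¹ • e₂ → μ₀ ≤ ν := by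
  classical
  let A : Set ℝ := {ν | 1 < ν ∧ ν ≤ μ ∧ ∃ g ∈ G, act g e₁ = ν • e₁ ∧ act g e₂ = ν⁻¹ • e₂}
  have hfinA : A.Finite := by
    let φ : (Fin N → ℤ) → ℝ := fun s =>
      if hs : ∃ ν : ℝ, toR s = ν • e₁ + ν⁻¹ • e₂ then hs.choose else 0
    refine ((dyn_finite_ball (n := N) (μ * ‖e₁‖ + ‖e₂‖)).image φ).subset ?_
    rintro ν ⟨hν1, hνμ, g', hg', h3, h4⟩
    have h5 : toR (actZ g' h) = ν • e₁ + ν⁻¹ • e₂ := by
      rw [toR_actZ, hh, act_add, h3, h4]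
    refine ⟨actZ g' h, ?_, ?_⟩
    · change ‖toR (actZ g' h)‖ ≤ _
      rw [h5]
      refine (norm_add_le _ _).trans ?_
      rw [norm_smul, norm_smul, Real.norm_eq_abs, Real.norm_eq_abs, abs_of_pos (by linarith),
        abs_of_pos (by positivity)]
      have h6 : ν⁻¹ ≤ 1 := inv_le_one_of_one_le₀ hν1.le
      have h7 := norm_nonneg e₁
      have h8 := norm_nonneg e₂
      nlinarith
    · have hex : ∃ ν : ℝ, toR (actZ g' h) = ν • e₁ + ν⁻¹ • e₂ := ⟨ν, h5⟩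
      change (if hs : ∃ ν : ℝ, toR (actZ g' h) = ν • e₁ + ν⁻¹ • e₂ then hs.choose else 0) = ν
      rw [dif_pos hex]
      have h6 := hex.choose_spec
      exact (X.indep (h5.symm.trans h6)).1.symm
  have hne : A.Nonempty := ⟨μ, hμ, le_rfl, g, hg, h1, h2⟩
  obtain ⟨μ₀, ⟨hμ₀, hμ₀μ, g₀, hg₀, h3, h4⟩, hmin⟩ := Set.exists_min_image A id hfinA hne
  refine ⟨g₀, hg₀, μ₀, hμ₀, h3, h4, ?_⟩
  intro g' hg' ν hν h5 h6
  by_cases hνμ : ν ≤ μ
  · exact hmin ν ⟨hν, hνμ, g', hg', h5, h6⟩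
  · push Not at hνμ
    exact hμ₀μ.trans hνμ.le

end Pool.Agent.H57.IR
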